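import Pool.Agent.H97.Star.An
import Pool.Agent.H97.Bun.CNil

/-!
# Star lemma: the balanced functions on the symmetric ends

Part of `MP_644d19_co` (symmetric ends). `Abs s σ a k Γ p`: the `p x` have type `k`, over `Γ` the
paths from `p x` end in `p x` only, and every state of type `k` reaches some `p y` over `Γ`.

* `abs_word`: a valid word `w` from `k` with `w.map t = β`, `fin t k w = k`, if `Rl β g` (`al_word` at
  `p x`, `ha.run`).
* `ax_of_bl`: let `C = ∑ q, |φ q|` and `S = {ψ | (∀ q, |ψ q| ≤ C) ∧ Bl k ψ 0 ∧ ∀ x, ψ (p x) = φ (p x)}`.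
  `S` is compact (closed: `mean` is a finite sum, so continuous in `ψ`; bounded), convex (`bl_add`,
  `bl_smul`), contains `φ`, invariant under `Mo Γ` (`mo_bound`, `bl_mo` with `abs_word`, `mo_eq` with
  `Rl Γ 1`). `exists_fixed` (`Cyc/Lim.lean`) gives `ψ ∈ S` with `Mo Γ ψ = ψ`. (See `to_harm` in
  `Cyc/HarmB.lean` for the same argument.)
* `ax_perm`: `ψ` for `u`; apply `ax_of_bl` to `φ = Mo β ψ` (`bl_mo` with `abs_word`), `φ (p x) = ψ (p (g x))`
  (`mo_eq`).
* `ax_const`: `ψ` for the constant `c`; `ψ - c` is fixed by `Mo Γ` at the states of type `k` (`mo_eq` for the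
  constant function: over `Γ` there is an end) and `0` at the `p x`, so `ψ = c` on type `k`
  (`mo_zero`); its mean at `k` (`v = []`) is `0`, and is `c` (`mean_congr`, `mean_const`).
* `ax_inf`: `ψ` for `a`, `ψ'` for `a' = flip e1 e2 {x} a`; `Mo` is the same (`mo_flip`), so `ψ - ψ'` is fixed
  and `0` on the `p x`: `ψ = ψ'` on type `k` (`mo_zero`). So `ψ` is balanced for `a` and for `a'`
  (`bl_congr` with `ha.flip`); `const_nil` (with `bl_iff e1 e2`) gives `ψ = 0` on type `k`.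
* `bl_sep`: `exists_sep` gives `w`; `f y = if run a y w = run a z w then 1 else 0` is balanced by
  `bal_class` with `u = []` (`run a z w ∈ img σ a (σ z) w`), `f z = 1`, `f z' = 0`.
-/

set_option autoImplicit false

namespace Pool.Agent.H97.Star

open Pool.Agent.H75.Bunchy Pool.Agent.H26.Bunchy Pool.Agent.H97.Bun Pool.Agent.H97.Cyc
open scoped Classical

variable {V K E X : Type*} [Fintype V] [Fintype E] {s t : E → K} {σ : V → K} {a : V → E → V}
  {e1 e2 : E} {μ : V → ℝ} {pr : E → ℝ} {p : X → V} {k : K} {Γ : List K}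

theorem ax_perm (ha : Typed s t σ a) (hA : Abs s σ a k Γ p) [Nonempty X] {β : List K}
    {g : Equiv.Perm X} (hβ : Rl (Step s σ a) σ p β g) {u : X → ℝ}
    (hu : u ∈ Ax s t σ a μ k Γ p) : (fun x => u (g x)) ∈ Ax s t σ a μ k Γ p := by
  obtain ⟨ψ, h1, h2, h3⟩ := hu
  obtain ⟨x0⟩ := ‹Nonempty X›
  obtain ⟨w, hw, hwβ, hwk⟩ := abs_word ha hA.typ x0 hβ
  have hb : Bl s t σ a μ k (Mo s t σ a (w.map t) ψ) 0 := bl_mo ha hw (by rw [hwk]; exact h2)
  rw [hwβ] at hb
  have hx := @ax_of_bl V K E X _ _ s t σ a μ p k Γ ha hA ⟨x0⟩ (Mo s t σ a β ψ) hb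
  have he : (fun x => u (g x)) = fun x => Mo s t σ a β ψ (p x) := by
    funext x
    rw [mo_eq ha (ρ := ψ (p (g x))) (fun z hz => by rw [(hβ x z).1 hz])
      ⟨p (g x), (hβ x _).2 rfl⟩, h3]
  rw [he]
  exact hx

theorem ax_const (hμ : ∀ q, 0 < μ q) (ha : Typed s t σ a) (hA : Abs s σ a k Γ p) [Nonempty X]
    {c : ℝ} (h : (fun _ : X => c) ∈ Ax s t σ a μ k Γ p) : c = 0 := by
  obtain ⟨ψ, h1, h2, h3⟩ := h
  obtain ⟨x0⟩ := ‹Nonempty X›
  have hc : ∀ q, σ q = k → Mo s t σ a Γ (fun _ => c) q = c := fun q hq => by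
    obtain ⟨y, hy⟩ := hA.abs q hq
    exact mo_eq ha (fun _ _ => rfl) ⟨_, hy⟩
  have hz := mo_zero (ψ := ψ - fun _ => c) ha hA.typ hA.abs
    (fun q hq => by rw [map_sub, Pi.sub_apply, h1 q hq, hc q hq, Pi.sub_apply])
    (fun x => by rw [Pi.sub_apply, h3, sub_self])
  have hm := h2 k [] ⟨p x0, hA.typ x0⟩ trivial rfl
  have hm' : mean σ μ k (fun p => ψ (run a p [])) = c := by
    rw [← mean_const (σ := σ) hμ ⟨p x0, hA.typ x0⟩ c]
    refine mean_congr fun q hq => ?_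
    have := hz q hq
    rw [Pi.sub_apply] at this
    have h5 : ψ q = c := by linarith
    exact h5
  rw [← hm', hm]

theorem ax_inf (hμ : ∀ q, 0 < μ q) (hs : s e1 = s e2) (ht : t e1 = t e2) (ha : Typed s t σ a)
    {x : V} (hx : s e1 = σ x) (hT : Total s σ a (a x e1) (a x e2)) (hA : Abs s σ a k Γ p)
    {u : X → ℝ} (h : u ∈ Ax s t σ a μ k Γ p) (h' : u ∈ Ax s t σ (flip e1 e2 {x} a) μ k Γ p) :
    u = 0 := by
  obtain ⟨ψ, h1, h2, h3⟩ := h
  obtain ⟨ψ', h1', h2', h3'⟩ := h'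
  rw [mo_flip hs ht] at h1'
  have hz := mo_zero (ψ := ψ - ψ') ha hA.typ hA.abs
    (fun q hq => by rw [map_sub, Pi.sub_apply, h1 q hq, h1' q hq, Pi.sub_apply])
    (fun x => by rw [Pi.sub_apply, h3, h3', sub_self])
  have heq : ∀ q, σ q = k → ψ' q = ψ q := fun q hq => by
    have := hz q hq
    rw [Pi.sub_apply] at this
    linarith
  have hb := bl_congr (ha.flip hs ht {x}) heq h2'
  have h0 := const_nil hμ hs ht ha hx hT ((bl_iff e1 e2).1 h2) ((bl_iff e1 e2).1 hb)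
  funext y
  rw [← h3 y, h0 _ (hA.typ y), Pi.zero_apply]

end Pool.Agent.H97.Star
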