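import Pool.Agent.H97.Star.An

/-!
# Star lemma: the shortest word to a flexible state

Part of `MP_644d19_co` (symmetric ends). A state `i` is flexible if two parallel letters lead to
different states.

* `exists_min`: there is a valid word from `k` that leads some `p x` to a flexible state (`exists_word`,
  `hcn` from `p x` to `i`, `fin = s e1` by `ha.run`). Take one of minimal length (`Nat.find`). Then for all
  `y` and all splittings `w = u ++ e :: u'` the state `run a (p y) u` is not flexible (its type is
  `fin t k u = s e`; a parallel pair `f1, f2` at it with different ends would give the shorter word `u`): so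
  for all parallel `f1`, `f2` with source `fin t k u`, `a (run a (p y) u) f1 = a (run a (p y) u) f2`.
* `run_flip_eq`: hence for all parallel `f1`, `f2` and all `δ`, `run (flip f1 f2 δ a) (p y) w = run a (p y) w`
  (induction on the prefixes: `flip f1 f2 δ a q e` is `a q e` or `a q (swap f1 f2 e)`, and `swap f1 f2 e` is parallel
  to `e`: `s_swap`, `t_swap`).
* `pull`: `f` balanced with mean `c` at the type `fin t k w`; `q ↦ f (run a q w) - c` is balanced with mean `0`
  at `k` (`bl_run`, `bl_add`, `bl_const`); `ax_of_bl`.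
-/

set_option autoImplicit false

namespace Pool.Agent.H97.Star

open Pool.Agent.H75.Bunchy Pool.Agent.H26.Bunchy Pool.Agent.H97.Bun Pool.Agent.H97.Cyc
open scoped Classical

variable {V K E X : Type*} [Fintype V] [Fintype E] {s t : E → K} {σ : V → K} {a : V → E → V}
  {e1 e2 : E} {μ : V → ℝ} {pr : E → ℝ} {p : X → V} {k : K} {Γ : List K}

/-- `e1`, `e2` are parallel letters that lead `i` to different states -/
def Flx (s t : E → K) (σ : V → K) (a : V → E → V) (e1 e2 : E) (i : V) : Prop :=
  s e1 = s e2 ∧ t e1 = t e2 ∧ s e1 = σ i ∧ a i e1 ≠ a i e2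

omit [Fintype V] [Fintype E] in
private lemma exists_len (ha : Typed s t σ a) (hcn : Conn s σ a) [Nonempty X]
    (hk : ∀ x, σ (p x) = k) (hex : ∃ e1 e2 i, Flx s t σ a e1 e2 i) :
    ∃ (n : ℕ) (w : List E) (e1 e2 : E) (x : X), Valid s t k w ∧ fin t k w = s e1 ∧
      Flx s t σ a e1 e2 (run a (p x) w) ∧ w.length = n := by
  obtain ⟨e1, e2, i, h⟩ := hex
  obtain ⟨x⟩ := ‹Nonempty X›
  obtain ⟨u, hu, hq⟩ := exists_word ha (hcn (p x) i)
  have h1 := ha.run (p x) u hu
  rw [hk x] at hu h1
  refine ⟨u.length, u, e1, e2, x, hu, ?_, ?_, rfl⟩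
  · rw [← h1, hq]
    exact h.2.2.1.symm
  · rw [hq]
    exact h

omit [Fintype V] [Fintype E] in
theorem exists_min (ha : Typed s t σ a) (hcn : Conn s σ a) [Nonempty X]
    (hk : ∀ x, σ (p x) = k) (hex : ∃ e1 e2 i, Flx s t σ a e1 e2 i) :
    ∃ (w : List E) (e1 e2 : E) (x : X), Valid s t k w ∧ fin t k w = s e1 ∧
      Flx s t σ a e1 e2 (run a (p x) w) ∧
      ∀ (f1 f2 : E), s f1 = s f2 → t f1 = t f2 → ∀ (δ : Set V) (y : X),
        run (flip f1 f2 δ a) (p y) w = run a (p y) w := by
  have hP := exists_len ha hcn hk hex
  obtain ⟨w, e1, e2, x, hw, hf, hfl, hlen⟩ := Nat.find_spec hP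
  refine ⟨w, e1, e2, x, hw, hf, hfl, ?_⟩
  intro f1 f2 hs ht δ y
  have hmin : ∀ (u : List E) (y : X), Valid s t k u → fin t k u = s f1 → u.length < w.length →
      a (run a (p y) u) f1 = a (run a (p y) u) f2 := by
    intro u y hu hfu hlt
    by_contra hne
    have h1 := ha.run (p y) u (by rw [hk y]; exact hu)
    rw [hk y] at h1
    refine Nat.find_min hP (m := u.length) (by omega) ⟨u, f1, f2, y, hu, hfu, ?_, rfl⟩
    exact ⟨hs, ht, by rw [h1, hfu], hne⟩
  have key : ∀ u u' : List E, w = u ++ u' → run (flip f1 f2 δ a) (p y) u = run a (p y) u := by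
    intro u
    induction u using List.reverseRecOn with
    | nil => intro u' _; rfl
    | append_singleton u e ih =>
      intro u' huu
      have hw' : w = u ++ ([e] ++ u') := by rw [huu, List.append_assoc]
      have hih := ih ([e] ++ u') hw'
      have hlt : u.length < w.length := by
        rw [hw']
        simp
      rw [hw', valid_append] at hw
      obtain ⟨hu, he⟩ := hw
      have he' : s e = fin t k u := he.1
      rw [run_append, run_append, hih]
      simp only [run_cons, run_nil]
      by_cases hδ : run a (p y) u ∈ δ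
      · rw [flip_of_mem hδ]
        by_cases h1 : e = f1
        · subst h1
          rw [Equiv.swap_apply_left]
          exact (hmin u y hu he'.symm hlt).symm
        · by_cases h2 : e = f2
          · subst h2
            rw [Equiv.swap_apply_right]
            exact hmin u y hu (by rw [hs]; exact he'.symm) hlt
          · rw [Equiv.swap_apply_of_ne_of_ne h1 h2]
      · rw [flip_of_notMem hδ]
  exact key w [] (List.append_nil w).symm

theorem pull (hμ : ∀ q, 0 < μ q) (ha : Typed s t σ a) (hA : Abs s σ a k Γ p) [Nonempty X]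
    {w : List E} (hw : Valid s t k w) {f : V → ℝ} {c : ℝ} (h : Bl s t σ a μ (fin t k w) f c) :
    (fun x => f (run a (p x) w) - c) ∈ Ax s t σ a μ k Γ p := by
  have h1 := bl_add (bl_run hw h) (bl_const hμ (-c))
  have h2 : Bl s t σ a μ k (fun q => f (run a q w) - c) 0 := by
    rw [add_neg_cancel] at h1
    have e : (fun q => f (run a q w) - c) = (fun q => f (run a q w)) + fun _ => -c := by
      funext q
      rw [Pi.add_apply, sub_eq_add_neg]
    rw [e]
    exact h1
  exact ax_of_bl ha hA h2

end Pool.Agent.H97.Star
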