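import Pool.Agent.H97.Star.Defs
import Pool.Agent.H97.Bun.Kern

/-!
# Star lemma: the balanced functions on the symmetric ends

Part of `MP_644d19_co` (symmetric ends). `Abs s σ a k Γ p`: the `p x` have type `k`, over `Γ` the
paths from `p x` end in `p x` only, and every state of type `k` reaches some `p y` over `Γ`.

* `abs_word`: a valid word `w` from `k` with `w.map t = β`, `fin t k w = k`, if `Rl β g` (`al_word` at
  `p x`, `ha.run`).
* `ax_of_bl`: let `C = ∑ q, |φ q|` and `S = {ψ | (∀ q, |ψ q| ≤ C) ∧ Bl k ψ 0 ∧ ∀ x, ψ (p x) = φ (p x)}`.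
  `S` is compact (closed: `mean` is a finite sum, so continuous in `ψ`; bounded), convex (`bl_add`,
  `bl_smul`), contains `φ`, invariant under `Mo Γ` (`mo_bound`, `bl_mo` with `abs_word`, `mo_eq` with
  `Rl Γ 1`). `exists_fixed` (`Cyc/Lim.lean`) gives `ψ ∈ S` with `Mo Γ ψ = ψ`. (See `to_harm` in
  `Cyc/HarmB.lean` for the same argument.)
* `ax_perm`: `ψ` for `u`; apply `ax_of_bl` to `φ = Mo β ψ` (`bl_mo` with `abs_word`), `φ (p x) = ψ (p (g x))`
  (`mo_eq`).
* `ax_const`: `ψ` for the constant `c`; `ψ - c` is fixed by `Mo Γ` at the states of type `k` (`mo_eq` for the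
  constant function: over `Γ` there is an end) and `0` at the `p x`, so `ψ = c` on type `k`
  (`mo_zero`); its mean at `k` (`v = []`) is `0`, and is `c` (`mean_congr`, `mean_const`).
* `ax_inf`: `ψ` for `a`, `ψ'` for `a' = flip e1 e2 {x} a`; `Mo` is the same (`mo_flip`), so `ψ - ψ'` is fixed
  and `0` on the `p x`: `ψ = ψ'` on type `k` (`mo_zero`). So `ψ` is balanced for `a` and for `a'`
  (`bl_congr` with `ha.flip`); `const_nil` (with `bl_iff e1 e2`) gives `ψ = 0` on type `k`.
* `bl_sep`: `exists_sep` gives `w`; `f y = if run a y w = run a z w then 1 else 0` is balanced by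
  `bal_class` with `u = []` (`run a z w ∈ img σ a (σ z) w`), `f z = 1`, `f z' = 0`.
-/

set_option autoImplicit false

namespace Pool.Agent.H97.Star

open Pool.Agent.H75.Bunchy Pool.Agent.H26.Bunchy Pool.Agent.H97.Bun Pool.Agent.H97.Cyc
open scoped Classical

variable {V K E X : Type*} [Fintype V] [Fintype E] {s t : E → K} {σ : V → K} {a : V → E → V}
  {e1 e2 : E} {μ : V → ℝ} {pr : E → ℝ} {p : X → V} {k : K} {Γ : List K}

/-- balanced functions separate the states of an automaton without stable pair -/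
theorem bl_sep (hs : s e1 = s e2) (ht : t e1 = t e2) (ha : Typed s t σ a) (hcn : Conn s σ a)
    (h : Stat s σ a pr μ) (hsu : ∀ e, ∃ p, s e = σ p) (hno : NoStable s t σ a) {z z' : V}
    (hzz : σ z = σ z') (hne : z ≠ z') : ∃ f c, Bl s t σ a μ (σ z) f c ∧ f z ≠ f z' := by
  obtain ⟨w, hw, hr, hsep⟩ := exists_sep ha hcn hno hzz hne
  refine ⟨fun y => if run a y w = run a z w then 1 else 0, 1 / (rank s t σ a : ℝ),
    (bl_iff e1 e2).2 ?_, ?_⟩
  · exact bal_class hs ht ha hcn h hsu (k := σ z) (u := []) trivial hw hr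
      ⟨z, rfl, rfl⟩
  · simp only [if_true, if_neg hsep.symm]
    norm_num

end Pool.Agent.H97.Star
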