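import Pool.Agent.H97.Star.Defs

/-!
# Star lemma: balanced for two different single exchanges

Part of `MP_644d19_co` (symmetric ends). `ai = flip e1 e2 {i} a`, `aj = flip e1 e2 {j} a`, `i ≠ j`
of the same type `σ i`; `ψ` is balanced with mean `0` at the type `k` for both.

`two_words`: suppose that for all words `v` shorter than `n`, valid from `σ i` with `fin = k`,
`ψ (run ai i v) = ψ (run aj i v)` and `ψ (run ai j v) = ψ (run aj j v)`. Then `ψ (run ai q w) = ψ (run aj q w)`
for all words `w` shorter than `n`, valid from `σ q` with `fin = k` (induction on `w`: for `q = i` or `j` the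
hypothesis; otherwise `ai q e = a q e = aj q e`, `flip_of_notMem`).

`two_flips`: (1) Suppose the hypothesis holds for all `v` (all `n`). Let
`R q q' := σ q = σ q' ∧ ∀ w, Valid s t (σ q) w → fin t (σ q) w = k → ψ (run ai q w) = ψ (run ai q' w)`. It is an
equivalence relation closed under valid letters (`ha.flip`), and contains `(a i e2, a i e1)`: for `w` valid
from `t e1` with `fin = k`: `ψ (run ai (a i e2) w) = ψ (run ai i (e1 :: w)) = ψ (run aj i (e1 :: w)) =
ψ (run aj (a i e1) w) = ψ (run ai (a i e1) w)` (`flip_left`, `flip_of_notMem`, `two_words`). By `hT` it contains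
all pairs of the same type; `w = []`.
(2) Otherwise take `v` of minimal length `n` (`Nat.find`) for which one of the two equations fails. `v ≠ []`
(both sides are `ψ q`), `v = e :: v'`. Put `f q = ψ (run ai q v)`, `f' q = ψ (run aj q v)`: balanced for `ai`,
`aj` at the type `σ i` with mean `0` (`bl_run`). For `q ≠ i, j` of type `σ i`:
`f q = ψ (run ai (a q e) v') = ψ (run aj (a q e) v') = f' q` by `two_words`.
-/

set_option autoImplicit false

namespace Pool.Agent.H97.Star

open Pool.Agent.H75.Bunchy Pool.Agent.H26.Bunchy Pool.Agent.H97.Bun Pool.Agent.H97.Cyc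
open scoped Classical

variable {V K E : Type*} [Fintype V] [Fintype E] {s t : E → K} {σ : V → K} {a : V → E → V}
  {e1 e2 : E} {μ : V → ℝ}

omit [Fintype V] [Fintype E] in
lemma two_words (hs : s e1 = s e2) (ht : t e1 = t e2) (ha : Typed s t σ a) {i j : V}
    (hij : σ j = σ i) {k : K} {ψ : V → ℝ} {n : ℕ}
    (hn : ∀ v : List E, v.length < n → Valid s t (σ i) v → fin t (σ i) v = k →
      ψ (run (flip e1 e2 {i} a) i v) = ψ (run (flip e1 e2 {j} a) i v) ∧
      ψ (run (flip e1 e2 {i} a) j v) = ψ (run (flip e1 e2 {j} a) j v)) :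
    ∀ w : List E, w.length < n → ∀ q : V, Valid s t (σ q) w → fin t (σ q) w = k →
      ψ (run (flip e1 e2 {i} a) q w) = ψ (run (flip e1 e2 {j} a) q w) := by
  intro w
  induction w with
  | nil => intro _ q _ _; rfl
  | cons e w ih =>
    intro hl q hv hf
    by_cases hqi : q = i
    · subst hqi
      exact (hn _ hl hv hf).1
    · by_cases hqj : q = j
      · subst hqj
        rw [hij] at hv hf
        exact (hn _ hl hv hf).2
      · have h1 : flip e1 e2 {i} a q e = a q e := flip_of_notMem (by simpa using hqi) _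
        have h2 : flip e1 e2 {j} a q e = a q e := flip_of_notMem (by simpa using hqj) _
        rw [run_cons, run_cons, h1, h2]
        have h3 : σ (a q e) = t e := ha q e hv.1
        refine ih (lt_of_le_of_lt (by simp) hl) (a q e) ?_ ?_
        · rw [h3]; exact hv.2
        · rw [h3]; exact hf

theorem two_flips (hs : s e1 = s e2) (ht : t e1 = t e2) (ha : Typed s t σ a) {i j : V}
    (hne : i ≠ j) (hij : σ j = σ i) (hi : s e1 = σ i)
    (hT : Total s σ (flip e1 e2 {i} a) (a i e2) (a i e1)) {k : K} {ψ : V → ℝ}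
    (h : Bl s t σ (flip e1 e2 {i} a) μ k ψ 0) (h' : Bl s t σ (flip e1 e2 {j} a) μ k ψ 0) :
    (∀ q q', σ q = k → σ q' = k → ψ q = ψ q') ∨
    ∃ f f' : V → ℝ, Bl s t σ (flip e1 e2 {i} a) μ (σ i) f 0 ∧
      Bl s t σ (flip e1 e2 {j} a) μ (σ i) f' 0 ∧
      (∀ q, σ q = σ i → q ≠ i → q ≠ j → f q = f' q) ∧ (f i ≠ f' i ∨ f j ≠ f' j) := by
  have hai : Typed s t σ (flip e1 e2 {i} a) := ha.flip hs ht {i}
  by_cases H : ∀ v : List E, Valid s t (σ i) v → fin t (σ i) v = k →
      ψ (run (flip e1 e2 {i} a) i v) = ψ (run (flip e1 e2 {j} a) i v) ∧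
      ψ (run (flip e1 e2 {i} a) j v) = ψ (run (flip e1 e2 {j} a) j v)
  · left
    have tw : ∀ (w : List E) (q : V), Valid s t (σ q) w → fin t (σ q) w = k →
        ψ (run (flip e1 e2 {i} a) q w) = ψ (run (flip e1 e2 {j} a) q w) := fun w q hv hf =>
      two_words hs ht ha hij (n := w.length + 1) (fun v _ h1 h2 => H v h1 h2) w
        (Nat.lt_succ_self _) q hv hf
    let R : V → V → Prop := fun p q => σ p = σ q ∧ ∀ w, Valid s t (σ p) w → fin t (σ p) w = k →
      ψ (run (flip e1 e2 {i} a) p w) = ψ (run (flip e1 e2 {i} a) q w)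
    have hR : ∀ p q, σ p = σ q → R p q := by
      refine hT R ⟨fun p => ⟨rfl, fun w _ _ => rfl⟩, ?_, ?_⟩ (fun p q h => h.1) ?_ ?_
      · intro p q hpq
        exact ⟨hpq.1.symm, fun w h1 h2 => (hpq.2 w (by rw [hpq.1]; exact h1)
          (by rw [hpq.1]; exact h2)).symm⟩
      · intro p q r hpq hqr
        exact ⟨hpq.1.trans hqr.1, fun w h1 h2 => (hpq.2 w h1 h2).trans
          (hqr.2 w (by rw [← hpq.1]; exact h1) (by rw [← hpq.1]; exact h2))⟩
      · intro p q e hpq he
        have h1 : σ (flip e1 e2 {i} a p e) = t e := hai p e he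
        have h2 : σ (flip e1 e2 {i} a q e) = t e := hai q e (by rw [← hpq.1]; exact he)
        refine ⟨h1.trans h2.symm, fun w hw hf => ?_⟩
        rw [h1] at hw hf
        exact hpq.2 (e :: w) ⟨he, hw⟩ hf
      · have h1 : σ (a i e2) = t e2 := ha i e2 (by rw [← hs]; exact hi)
        have h2 : σ (a i e1) = t e1 := ha i e1 hi
        refine ⟨by rw [h1, h2, ht], fun w hw hf => ?_⟩
        rw [h1, ← ht] at hw hf
        have h3 := (H (e1 :: w) ⟨hi, hw⟩ hf).1
        have h4 : flip e1 e2 {i} a i e1 = a i e2 := flip_left (by simp)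
        have h5 : flip e1 e2 {j} a i e1 = a i e1 := flip_of_notMem (by simpa using hne) _
        rw [run_cons, run_cons, h4, h5] at h3
        rw [h3]
        exact (tw w (a i e1) (by rw [h2]; exact hw) (by rw [h2]; exact hf)).symm
    intro q q' hq hq'
    exact (hR q q' (hq.trans hq'.symm)).2 [] trivial hq
  · right
    have hex : ∃ n : ℕ, ∃ v : List E, v.length = n ∧ Valid s t (σ i) v ∧ fin t (σ i) v = k ∧
        ¬ (ψ (run (flip e1 e2 {i} a) i v) = ψ (run (flip e1 e2 {j} a) i v) ∧
          ψ (run (flip e1 e2 {i} a) j v) = ψ (run (flip e1 e2 {j} a) j v)) := by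
      push Not at H
      obtain ⟨v, h1, h2, h3⟩ := H
      exact ⟨v.length, v, rfl, h1, h2, fun h => h3 h.1 h.2⟩
    obtain ⟨v, hl, hv, hf, hne'⟩ := Nat.find_spec hex
    have hn : ∀ v' : List E, v'.length < Nat.find hex → Valid s t (σ i) v' → fin t (σ i) v' = k →
        ψ (run (flip e1 e2 {i} a) i v') = ψ (run (flip e1 e2 {j} a) i v') ∧
        ψ (run (flip e1 e2 {i} a) j v') = ψ (run (flip e1 e2 {j} a) j v') := by
      intro v' h1 h2 h3
      by_contra h4
      exact Nat.find_min hex h1 ⟨v', rfl, h2, h3, h4⟩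
    refine ⟨fun q => ψ (run (flip e1 e2 {i} a) q v), fun q => ψ (run (flip e1 e2 {j} a) q v),
      bl_run hv (by rw [hf]; exact h), bl_run hv (by rw [hf]; exact h'), ?_, ?_⟩
    · intro q hq hqi hqj
      cases v with
      | nil => exact absurd ⟨rfl, rfl⟩ hne'
      | cons e v =>
        have h1 : flip e1 e2 {i} a q e = a q e := flip_of_notMem (by simpa using hqi) _
        have h2 : flip e1 e2 {j} a q e = a q e := flip_of_notMem (by simpa using hqj) _
        change ψ (run (flip e1 e2 {i} a) (flip e1 e2 {i} a q e) v) =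
          ψ (run (flip e1 e2 {j} a) (flip e1 e2 {j} a q e) v)
        rw [h1, h2]
        have h3 : σ (a q e) = t e := ha q e (by rw [hq]; exact hv.1)
        refine two_words hs ht ha hij hn v ?_ (a q e) ?_ ?_
        · rw [← hl]; simp
        · rw [h3]; exact hv.2
        · rw [h3]; exact hf
    · by_contra hcon
      push Not at hcon
      exact hne' hcon

end Pool.Agent.H97.Star
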