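import Pool.Agent.H97.Star.Orb

/-!
# Star lemma: finer types, and factors

Part of `MP_644d19_co` (symmetric ends).

`τ'` is a finer type map (`g (τ' q) = τ q`) with the property `RR`. Write `X' = {x | τ' (p x) = τ' (p x₀)}`.

* `al_lift`: a path over `β` for `τ` has a type list `β'` for `τ'`, `β'.map g = β`.
* `al_coarse`: conversely `Al r τ' q β' t → Al r τ q (β'.map g) t`.
* `al_transfer`: a path over `β'` starts at every vertex of the same `τ'`-type, and its end has the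
  same `τ'`-type (`al_exists`, `al_type`).
* `block`: if `Rl r τ p β h` and `τ' (p x) = τ' (p y)` then `τ' (p (h x)) = τ' (p (h y))`: the path from
  `p x` over `β` has a `τ'`-list `β'` (`al_lift`); the path from `p y` over `β'` (`al_transfer`) ends in
  a vertex of type `τ' (p (h x))`, and it is a path over `β` (`al_coarse`), so it ends in `p (h y)`.
* `Orb.refine`: `X'` with `p' = p ∘ Subtype.val`. Let `h₀` be realised with `h₀ (θ x₀) = x₀`
  (`Orb.trans`), and `θ' x = h₀ (θ x)`. For `x ∈ X'`: `sym x x₀` gives `k₁ x = θ x₀`, `k₁ x₀ = θ x`, so by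
  `block` (twice) `τ' (p (h₀ (θ x))) = τ' (p (h₀ (θ x₀))) = τ' (p x₀)`: `θ' x ∈ X'`.
  `restr`: if `Rl r τ p β h` and `h x ∈ X'` for some `x ∈ X'`, then `h` maps `X'` to itself (`block`), it
  restricts to a permutation `h'` of `X'` (`Equiv.ofBijective`, `Finite.injective_iff_bijective`), and
  some `β'` has `Rl r τ' p' β' h'`, in fact: for every `q` with `τ' q = τ' (p x₀)` and every path `Al r τ q β t` from
  it with `t = p' y`, its `τ'`-list `β'` has this property (for `x ∈ X'`: `(→)` `al_coarse`; `(←)` by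
  `al_transfer` there is an end, and by `(→)` it is `p (h x)`).
  `sym`: for `x, y ∈ X'` let `k₁ x = θ y`, `k₁ y = θ x` (`sym`), and take `h = h₀ * k₁` (`rl_append`).
  `absorb`: `q` with `τ' q = τ' (p x₀)` has `τ q = τ (p x₀)`; let `β, k₁, y` be given by `absorb`, and `k₂`
  realised with `k₂ y = x₀`; the path from `q` over `β ++ γ` to `p x₀` has a `τ'`-list `β'`. For
  `x ∈ X'` a path from `p x` over `β'` exists, ends in a vertex of the `τ'`-type of `p x₀`, and over
  `β ++ γ` the only end is `p (k₂ (k₁ x))`: so `k₂ (k₁ x) ∈ X'`, and `Rl r τ' p' β' (k₂ * k₁)'`.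
* `Orb.image`: `Al rW τW (f q) β w ↔ ∃ t, Al r τ q β t ∧ f t = w` (induction on `β`); so
  `Rl r τ p β g → Rl rW τW (f ∘ p) β g`; the three properties follow (`f` is surjective).
-/

set_option autoImplicit false

namespace Pool.Agent.H97.Star

section Refine
variable {V K K' : Type*} {r : V → V → Prop} {τ : V → K} {τ' : V → K'} {g : K' → K}

lemma al_lift (hg : ∀ q, g (τ' q) = τ q) {β : List K} {q t : V} (h : Al r τ q β t) :
    ∃ β', β'.map g = β ∧ Al r τ' q β' t := by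
  induction β generalizing q with
  | nil => exact ⟨[], rfl, h⟩
  | cons κ β ih =>
    obtain ⟨q', ⟨h1, h2⟩, h3⟩ := h
    obtain ⟨β', e, h4⟩ := ih h3
    refine ⟨τ' q' :: β', ?_, q', ⟨h1, rfl⟩, h4⟩
    rw [List.map_cons, e, hg, h2]

lemma al_coarse (hg : ∀ q, g (τ' q) = τ q) {β' : List K'} {q t : V} (h : Al r τ' q β' t) :
    Al r τ q (β'.map g) t := by
  induction β' generalizing q with
  | nil => exact h
  | cons κ β' ih =>
    obtain ⟨q', ⟨h1, h2⟩, h3⟩ := h
    rw [List.map_cons]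
    exact ⟨q', ⟨h1, by rw [← hg, h2]⟩, ih h3⟩

lemma al_transfer (hr : RR r τ') {β' : List K'} {q q' t : V} (h : Al r τ' q β' t)
    (hq : τ' q = τ' q') : ∃ t', Al r τ' q' β' t' ∧ τ' t' = τ' t := by
  induction β' generalizing q q' with
  | nil =>
    have h' : q = t := h
    exact ⟨q', rfl, by rw [← hq, h']⟩
  | cons κ β' ih =>
    obtain ⟨q₁, ⟨h1, h2⟩, h3⟩ := h
    obtain ⟨q₁', h4, h5⟩ := hr q q' q₁ hq h1
    obtain ⟨t', h6, h7⟩ := ih h3 h5.symm
    exact ⟨t', ⟨q₁', ⟨h4, by rw [h5, h2]⟩, h6⟩, h7⟩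

lemma block {X : Type*} {p : X → V} (hg : ∀ q, g (τ' q) = τ q) (hr : RR r τ') {β : List K}
    {h : Equiv.Perm X} (hh : Rl r τ p β h) {x y : X} (hxy : τ' (p x) = τ' (p y)) :
    τ' (p (h x)) = τ' (p (h y)) := by
  obtain ⟨β', e, h1⟩ := al_lift hg ((hh x (p (h x))).2 rfl)
  obtain ⟨t', h2, h3⟩ := al_transfer hr h1 hxy
  have h4 := al_coarse hg h2
  rw [e] at h4
  rw [← h3, (hh y t').1 h4]

end Refine

/-- symmetric ends pass to factors -/
theorem Orb.image {V W K X : Type*} {r : V → V → Prop} {τ : V → K} {rW : W → W → Prop}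
    {τW : W → K} {p : X → V} {θ : X → X} (f : V → W) (hτ : ∀ q, τW (f q) = τ q)
    (hf : Function.Surjective f) (him : ∀ q q', r q q' → rW (f q) (f q'))
    (hlift : ∀ q w', rW (f q) w' → ∃ q', r q q' ∧ f q' = w') (hO : Orb r τ p θ) :
    Orb rW τW (fun x => f (p x)) θ := by
  have key : ∀ (β : List K) (q : V) (w : W), Al rW τW (f q) β w ↔ ∃ t, Al r τ q β t ∧ f t = w := by
    intro β
    induction β with
    | nil =>
      intro q w
      exact ⟨fun h => ⟨q, rfl, h⟩, fun ⟨t, h1, h2⟩ => (congrArg f (show q = t from h1)).trans h2⟩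
    | cons κ β ih =>
      intro q w
      constructor
      · rintro ⟨w', ⟨h1, h2⟩, h3⟩
        obtain ⟨q', h4, h5⟩ := hlift q w' h1
        rw [← h5, ih q' w] at h3
        obtain ⟨t, h6, h7⟩ := h3
        exact ⟨t, ⟨q', ⟨h4, by rw [← hτ, h5, h2]⟩, h6⟩, h7⟩
      · rintro ⟨t, ⟨q', ⟨h1, h2⟩, h3⟩, h4⟩
        exact ⟨f q', ⟨him q q' h1, by rw [hτ, h2]⟩, (ih q' w).2 ⟨t, h3, h4⟩⟩
  have hRl : ∀ (β : List K) (g : Equiv.Perm X), Rl r τ p β g →
      Rl rW τW (fun x => f (p x)) β g := by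
    intro β g h x w
    rw [key β (p x) w]
    constructor
    · rintro ⟨t, h1, h2⟩
      rw [← h2, (h x t).1 h1]
    · intro h1
      exact ⟨p (g x), (h x _).2 rfl, h1.symm⟩
  refine ⟨?_, ?_, ?_⟩
  · intro x y
    rw [hτ, hτ]
    exact hO.typ x y
  · intro x y
    obtain ⟨β, g, h1, h2, h3⟩ := hO.sym x y
    exact ⟨β, g, hRl β g h1, h2, h3⟩
  · intro w x hw
    obtain ⟨q, rfl⟩ := hf w
    rw [hτ, hτ] at hw
    obtain ⟨β, g, y, h1, h2⟩ := hO.absorb q x hw
    exact ⟨β, g, y, hRl β g h1, (key β q _).2 ⟨p y, h2, rfl⟩⟩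

end Pool.Agent.H97.Star
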