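import Pool.Agent.H97.Star.Ref

/-!
# Star lemma: finer types (see `Ref.lean` for the lemmas)

Part of `MP_644d19_co` (symmetric ends).

`τ'` is a finer type map (`g (τ' q) = τ q`) with the property `RR`. Write `X' = {x | τ' (p x) = τ' (p x₀)}`.

* `al_lift`: a path over `β` for `τ` has a type list `β'` for `τ'`, `β'.map g = β`.
* `al_coarse`: conversely `Al r τ' q β' t → Al r τ q (β'.map g) t`.
* `al_transfer`: a path over `β'` starts at every vertex of the same `τ'`-type, and its end has the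
  same `τ'`-type (`al_exists`, `al_type`).
* `block`: if `Rl r τ p β h` and `τ' (p x) = τ' (p y)` then `τ' (p (h x)) = τ' (p (h y))`: the path from
  `p x` over `β` has a `τ'`-list `β'` (`al_lift`); the path from `p y` over `β'` (`al_transfer`) ends in
  a vertex of type `τ' (p (h x))`, and it is a path over `β` (`al_coarse`), so it ends in `p (h y)`.
* `Orb.refine`: `X'` with `p' = p ∘ Subtype.val`. Let `h₀` be realised with `h₀ (θ x₀) = x₀`
  (`Orb.trans`), and `θ' x = h₀ (θ x)`. For `x ∈ X'`: `sym x x₀` gives `k₁ x = θ x₀`, `k₁ x₀ = θ x`, so by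
  `block` (twice) `τ' (p (h₀ (θ x))) = τ' (p (h₀ (θ x₀))) = τ' (p x₀)`: `θ' x ∈ X'`.
  `restr`: if `Rl r τ p β h` and `h x ∈ X'` for some `x ∈ X'`, then `h` maps `X'` to itself (`block`), it
  restricts to a permutation `h'` of `X'` (`Equiv.ofBijective`, `Finite.injective_iff_bijective`), and
  some `β'` has `Rl r τ' p' β' h'`, in fact: for every `q` with `τ' q = τ' (p x₀)` and every path `Al r τ q β t` from
  it with `t = p' y`, its `τ'`-list `β'` has this property (for `x ∈ X'`: `(→)` `al_coarse`; `(←)` by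
  `al_transfer` there is an end, and by `(→)` it is `p (h x)`).
  `sym`: for `x, y ∈ X'` let `k₁ x = θ y`, `k₁ y = θ x` (`sym`), and take `h = h₀ * k₁` (`rl_append`).
  `absorb`: `q` with `τ' q = τ' (p x₀)` has `τ q = τ (p x₀)`; let `β, k₁, y` be given by `absorb`, and `k₂`
  realised with `k₂ y = x₀`; the path from `q` over `β ++ γ` to `p x₀` has a `τ'`-list `β'`. For
  `x ∈ X'` a path from `p x` over `β'` exists, ends in a vertex of the `τ'`-type of `p x₀`, and over
  `β ++ γ` the only end is `p (k₂ (k₁ x))`: so `k₂ (k₁ x) ∈ X'`, and `Rl r τ' p' β' (k₂ * k₁)'`.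
* `Orb.image`: `Al rW τW (f q) β w ↔ ∃ t, Al r τ q β t ∧ f t = w` (induction on `β`); so
  `Rl r τ p β g → Rl rW τW (f ∘ p) β g`; the three properties follow (`f` is surjective).
-/

set_option autoImplicit false

namespace Pool.Agent.H97.Star

/-- symmetric ends pass to finer types -/
theorem Orb.refine {V K K' X : Type} [Finite X] {r : V → V → Prop} {τ : V → K} {τ' : V → K'}
    {g : K' → K} {p : X → V} {θ : X → X} (hg : ∀ q, g (τ' q) = τ q) (hr : RR r τ')
    (hO : Orb r τ p θ) (x₀ : X) :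
    ∃ (X' : Type) (_ : Finite X') (_ : Nonempty X') (p' : X' → V) (θ' : X' → X'),
      Orb r τ' p' θ' := by
  classical
  obtain ⟨β₀, h₀, hR₀, hh₀⟩ := hO.trans (θ x₀) x₀
  have hθ : ∀ x : {x : X // τ' (p x) = τ' (p x₀)}, τ' (p (h₀ (θ x.1))) = τ' (p x₀) := by
    intro x
    obtain ⟨β₁, k₁, hR₁, h1, h2⟩ := hO.sym x.1 x₀
    have e1 := block hg hr hR₁ x.2
    rw [h1, h2] at e1
    have e2 := block hg hr hR₀ e1
    rw [hh₀] at e2
    exact e2.symm
  have restr : ∀ (β : List K) (h : Equiv.Perm X), Rl r τ p β h →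
      (∀ x : {x : X // τ' (p x) = τ' (p x₀)}, τ' (p (h x.1)) = τ' (p x₀)) →
      ∃ h' : Equiv.Perm {x : X // τ' (p x) = τ' (p x₀)}, (∀ x, (h' x).1 = h x.1) ∧
        ∀ q t, τ' q = τ' (p x₀) → Al r τ q β t →
          ∃ β', Al r τ' q β' t ∧
            Rl r τ' (fun x : {x : X // τ' (p x) = τ' (p x₀)} => p x.1) β' h' := by
    intro β h hR hx
    have hinj : Function.Injective (fun x : {x : X // τ' (p x) = τ' (p x₀)} =>
        (⟨h x.1, hx x⟩ : {x : X // τ' (p x) = τ' (p x₀)})) := by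
      intro x y hxy
      exact Subtype.ext (h.injective (congrArg Subtype.val hxy))
    refine ⟨Equiv.ofBijective _ (Finite.injective_iff_bijective.1 hinj), fun x => rfl, ?_⟩
    intro q t hq hA
    obtain ⟨β', hβ', hA'⟩ := al_lift hg hA
    have hfw : ∀ (x : {x : X // τ' (p x) = τ' (p x₀)}) (t' : V), Al r τ' (p x.1) β' t' →
        t' = p (h x.1) := by
      intro x t' ht'
      have := al_coarse hg ht'
      rw [hβ'] at this
      exact (hR x.1 t').1 this
    refine ⟨β', hA', fun x t' => ⟨fun ht' => hfw x t' ht', fun ht' => ?_⟩⟩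
    obtain ⟨t'', h1, _⟩ := al_transfer hr hA' (hq.trans x.2.symm)
    have h2 := hfw x t'' h1
    have h3 : t' = t'' := by
      rw [ht', h2]
      rfl
    rw [h3]
    exact h1
  refine ⟨{x : X // τ' (p x) = τ' (p x₀)}, inferInstance, ⟨⟨x₀, rfl⟩⟩, fun x => p x.1,
    fun x => ⟨h₀ (θ x.1), hθ x⟩, ?_, ?_, ?_⟩
  · intro x y
    exact x.2.trans y.2.symm
  · intro x y
    obtain ⟨β₁, k₁, hR₁, h1, h2⟩ := hO.sym x.1 y.1
    have hR := rl_append hR₁ hR₀
    have hxx : ∀ w : {x : X // τ' (p x) = τ' (p x₀)}, τ' (p ((h₀ * k₁) w.1)) = τ' (p x₀) := by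
      intro w
      have e1 := block hg hr hR (w.2.trans x.2.symm)
      rw [e1]
      show τ' (p (h₀ (k₁ x.1))) = τ' (p x₀)
      rw [h1]
      exact hθ y
    obtain ⟨h', e1, e2⟩ := restr _ _ hR hxx
    obtain ⟨β', _, e3⟩ := e2 (p x.1) (p ((h₀ * k₁) x.1)) x.2 ((hR x.1 _).2 rfl)
    refine ⟨β', h', e3, ?_, ?_⟩
    · refine Subtype.ext ?_
      rw [e1]
      show h₀ (k₁ x.1) = h₀ (θ y.1)
      rw [h1]
    · refine Subtype.ext ?_
      rw [e1]
      show h₀ (k₁ y.1) = h₀ (θ x.1)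
      rw [h2]
  · intro q x hq
    have hq0 : τ' q = τ' (p x₀) := hq.trans x.2
    have hqt : τ q = τ (p x.1) := by rw [← hg q, ← hg (p x.1), hq]
    obtain ⟨β, k₁, y, hR₁, hA₁⟩ := hO.absorb q x.1 hqt
    obtain ⟨γ, k₂, hR₂, hk₂⟩ := hO.trans y x₀
    have hR := rl_append hR₁ hR₂
    have hA : Al r τ q (β ++ γ) (p x₀) := by
      rw [al_append]
      refine ⟨p y, hA₁, (hR₂ y _).2 ?_⟩
      rw [hk₂]
    have hxx : ∀ w : {x : X // τ' (p x) = τ' (p x₀)}, τ' (p ((k₂ * k₁) w.1)) = τ' (p x₀) := by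
      intro w
      obtain ⟨β', hβ', hA'⟩ := al_lift hg hA
      obtain ⟨t', h1, h2⟩ := al_transfer hr hA' (hq0.trans w.2.symm)
      have h3 := al_coarse hg h1
      rw [hβ'] at h3
      rw [← (hR w.1 t').1 h3]
      exact h2
    obtain ⟨h', e1, e2⟩ := restr _ _ hR hxx
    obtain ⟨β', e4, e3⟩ := e2 q (p x₀) hq0 hA
    exact ⟨β', h', ⟨x₀, rfl⟩, e3, e4⟩

end Pool.Agent.H97.Star
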