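import Mathlib

/-!
# Star lemma: counting orthogonal vectors

Part of `MP_644d19_co` (symmetric ends). `S` is a finite set of permutations of `X`, closed under
products, such that for all `x`, `y` some `g ∈ S` maps `x` to `θ y` and `y` to `θ x`.

`orth`. For `u : X → ℝ` let `P_u x y = ∑ g ∈ S, u (g x) * u (g y)`.
(a) `P_u` is symmetric, and `P_u (h x) (h y) = P_u x y` for `h ∈ S` (`g ↦ g * h` maps `S` to itself, is
injective, so bijective: `Finset.sum_bij` or `Finset.sum_nbij'` with
`Finset.surj_on_of_inj_on_of_card_le`). Hence `P_u (θ x) (θ y) = P_u y x = P_u x y` (`g x = θ y`,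
`g y = θ x`).
(b) `θ` is injective, so a bijection (`g y = θ x`, `g x = θ y`: if `θ x = θ y` then `g x = g y`).
(c) `T x y = ∑ z, P_u x z * P_w z y` is invariant under `h ∈ S` too (substitute `z ↦ h z`), so
`T x y = T (θ y) (θ x) = ∑ z, P_u (θ y) (θ z) * P_w (θ z) (θ x) = ∑ z, P_u y z * P_w z x = ∑ z, P_w x z * P_u z y`.
(d) for fixed `y`, `x ↦ T x y = ∑ z, ∑ g, u (g x) * (u (g z) * P_w z y)` lies in `U` and (by (c)) in `W`.
So `T = 0`.
(e) `0 = ∑ x, T x x = ∑ g ∈ S, ∑ h ∈ S, (∑ x, u (g x) * w (h x)) ^ 2`; so the term `g = h = 1` is `0`.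

`star_count`: the `c j` are linearly independent: if `∑ j, r j • c j = 0` (`Fintype.linearIndependent_iff`),
multiply at `i` with `w i * c j₀ i` and sum over `i`: `r j₀ * ∑ i, w i * c j₀ i ^ 2 = 0`, and this sum is
positive. So `card (Option F) ≤ finrank (F → ℝ) = card F`
(`LinearIndependent.fintype_card_le_finrank`), a contradiction.
-/

set_option autoImplicit false

namespace Pool.Agent.H97.Star

open scoped Classical

theorem star_count {F : Type*} [Fintype F] (w : F → ℝ) (hw : ∀ i, 0 < w i)
    (c : Option F → F → ℝ) (hne : ∀ j, ∃ i, c j i ≠ 0)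
    (horth : ∀ j j', j ≠ j' → ∑ i, w i * (c j i * c j' i) = 0) : False := by
  have hli : LinearIndependent ℝ c := by
    rw [Fintype.linearIndependent_iff]
    intro r hr j₀
    have h1 : ∑ i, w i * ((∑ j, r j • c j) i * c j₀ i) = 0 := by
      rw [hr]
      simp
    have h2 : ∀ i, w i * ((∑ j, r j • c j) i * c j₀ i) =
        ∑ j, r j * (w i * (c j i * c j₀ i)) := by
      intro i
      rw [Finset.sum_apply, Finset.sum_mul, Finset.mul_sum]
      refine Finset.sum_congr rfl fun j _ => ?_
      rw [Pi.smul_apply, smul_eq_mul]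
      ring
    rw [Finset.sum_congr rfl fun i _ => h2 i, Finset.sum_comm] at h1
    rw [Finset.sum_eq_single j₀] at h1
    · rw [← Finset.mul_sum] at h1
      refine (mul_eq_zero.1 h1).resolve_right (ne_of_gt ?_)
      obtain ⟨i₀, hi₀⟩ := hne j₀
      refine Finset.sum_pos' (fun i _ => mul_nonneg (hw i).le (mul_self_nonneg _))
        ⟨i₀, Finset.mem_univ _, mul_pos (hw i₀) (mul_self_pos.2 hi₀)⟩
    · intro j _ hj
      rw [← Finset.mul_sum, horth j j₀ hj, mul_zero]
    · intro h
      exact absurd (Finset.mem_univ _) h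
  have h3 := hli.fintype_card_le_finrank
  rw [Module.finrank_fintype_fun_eq_card, Fintype.card_option] at h3
  omega

end Pool.Agent.H97.Star
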