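import Pool.Agent.H97.Star.StarB
import Pool.Agent.H97.Star.Count

/-!
# Star lemma: the total case

Part of `MP_644d19_co` (symmetric ends).

Let `w, e1, e2, x` be given by `exists_min`, `ζ y = run a (p y) w` (the same for all exchanges of `e1`, `e2`),
`F = {i | Flx s t σ a e1 e2 i ∧ ∃ y, ζ y = i}` (a nonempty finite type), `n i = card {y | ζ y = i} > 0`.
Let `S = {g | ∃ β, Rl (Step s σ a) σ p β g}` (closed under products, `rl_append`, contains `1`). For
`J = a` and `J = flip e1 e2 {i} a` (`i ∈ F`): `J` is typed, strongly connected, has no stable pair, `μ` is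
stationary (`stat_flip`), `Abs` holds (`Abs.flip`), `Rl` is the same relation (`step_flip`), and `Ax J` is
invariant under `S` (`ax_perm`).

* `perp`: if `Ax J` and `Ax J'` intersect in zero, they are orthogonal (`orth`). `ax_inf`: `Ax a`, `Ax (flip i)`
  intersect in zero. Constants: `W = span {1}` is invariant, `U ∩ W = 0` by `ax_const`; so `∑ x, u x = 0` for
  `u ∈ Ax J` (`orth`).
* `star_two`: for `i ≠ j` in `F`, `Ax (flip i) ∩ Ax (flip j) = 0`. Let `u` be in both, with `ψ`, `ψ'`; `Mo` is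
  the same, so `ψ = ψ'` on type `k` (`mo_zero`), and `ψ` is balanced with mean `0` for both. `two_flips`:
  either `ψ` is constant on type `k`, then it is `0` there (mean `0`), so `u = 0`; or there are `f`, `f'`. Put
  `κ_i = f i - f' i`, `κ_j = f j - f' j`, `u' y = f (ζ y)`, `u'' y = f' (ζ y)`: by `pull` (for `flip i`, `flip j`)
  in `Ax (flip i)`, `Ax (flip j)`, and `u' y - u'' y = κ_i [ζ y = i] + κ_j [ζ y = j]`. Sum over `y`:
  `κ_i n_i + κ_j n_j = 0`. By `bl_sep` some `h` is balanced for `a` at the type of `i` with `h i ≠ h j`;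
  `v y = h (ζ y) - c ∈ Ax a` (`pull`) is orthogonal to `u'` and `u''`:
  `κ_i n_i (h i - c) + κ_j n_j (h j - c) = 0`. So `κ_i n_i (h i - h j) = 0`, `κ_i = 0`, then `κ_j = 0`:
  contradiction.
* `star_total`: for `J` as above let `h_J` be balanced at the type `t e1` with `h_J (J i₀ e1) ≠ h_J (J i₀ e2)`
  (`bl_sep`; `i₀ = ζ x`), `c_J i = h_J (J i e1) - h_J (J i e2)` (a function of the state `i`). `q ↦ c_J q` is balanced at
  the type `s e1` with mean `0` (`bl_run` for `[e1]` and `[e2]`, difference). So `y ↦ c_J (ζ y) ∈ Ax J` (`pull`).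
  `c_J i = 0` if `i` has type `s e1` and is not flexible for `e1, e2`; `c_J i₀ ≠ 0`. For `J ≠ J'` :
  `0 = ∑ y, c_J (ζ y) * c_J' (ζ y) = ∑ i ∈ F, n_i * (c_J i * c_J' i)` (`Finset.sum_fiberwise`-like). `star_count`.
-/

set_option autoImplicit false

namespace Pool.Agent.H97.Star

open Pool.Agent.H75.Bunchy Pool.Agent.H26.Bunchy Pool.Agent.H97.Bun Pool.Agent.H97.Cyc
open scoped Classical

variable {V K E X : Type*} [Fintype V] [Fintype E] [Fintype X] [Nonempty X] {s t : E → K}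
  {σ : V → K} {a : V → E → V} {e1 e2 : E} {μ : V → ℝ} {pr : E → ℝ} {p : X → V} {θ : X → X}

omit [Fintype V] [Fintype E] [Fintype X] [Nonempty X] in
private lemma starC_orb (hs : s e1 = s e2) (δ : Set V) (hO : Orb (Step s σ a) σ p θ) :
    Orb (Step s σ (flip e1 e2 δ a)) σ p θ := by
  have h : Step s σ (H75.Bunchy.flip e1 e2 δ a) = Step s σ a := by
    funext q q'
    exact propext (step_flip hs δ q q')
  rw [h]
  exact hO

omit [Fintype V] [Fintype E] [Fintype X] [Nonempty X] in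
/-- an exchanged automaton separates the letters where the given one does -/
private lemma starC_ne (δ : Set V) {i : V} :
    flip e1 e2 δ a i e1 = flip e1 e2 δ a i e2 ↔ a i e1 = a i e2 := by
  by_cases h : i ∈ δ
  · rw [flip_of_mem h, flip_of_mem h, Equiv.swap_apply_left, Equiv.swap_apply_right]
    exact eq_comm
  · rw [flip_of_notMem h, flip_of_notMem h]

omit [Fintype E] in
/-- the difference function of an automaton -/
private lemma starC_diff {b : V → E → V} (hs : s e1 = s e2) (ht : t e1 = t e2)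
    {f : V → ℝ} {c : ℝ} (h : Bl s t σ b μ (t e1) f c) :
    Bl s t σ b μ (s e1) (fun q => f (b q e1) - f (b q e2)) 0 := by
  have h1 : Bl s t σ b μ (s e1) (fun q => f (run b q [e1])) c :=
    bl_run (w := [e1]) ⟨rfl, trivial⟩ h
  have h2 : Bl s t σ b μ (s e1) (fun q => f (run b q [e2])) c :=
    bl_run (w := [e2]) ⟨hs.symm, trivial⟩ (by
      show Bl s t σ b μ (t e2) f c
      rw [← ht]; exact h)
  have h3 := bl_add h1 (bl_smul (-1) h2)
  have h4 : c + -1 * c = 0 := by ring
  rw [h4] at h3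
  have h5 : (fun q => f (b q e1) - f (b q e2)) =
      (fun q => f (run b q [e1])) + (-1 : ℝ) • fun q => f (run b q [e2]) := by
    funext q
    rw [Pi.add_apply, Pi.smul_apply, smul_eq_mul]
    simp only [run_cons, run_nil]
    ring
  rw [h5]
  exact h3

omit [Fintype V] [Fintype E] [Nonempty X] in
/-- sums over the fibres of `ζ` -/
private lemma starC_sum {Q : V → Prop} (ζ : X → V) (F : V → ℝ)
    (hF : ∀ y, ¬ Q (ζ y) → F (ζ y) = 0) [Fintype {i : V // Q i ∧ ∃ y, ζ y = i}] :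
    ∑ y, F (ζ y) = ∑ i : {i : V // Q i ∧ ∃ y, ζ y = i},
      ((Finset.univ.filter fun y => ζ y = i.1).card : ℝ) * F i.1 := by
  have h1 : ∀ y, F (ζ y) = ∑ i : {i : V // Q i ∧ ∃ y, ζ y = i}, if ζ y = i.1 then F i.1 else 0 := by
    intro y
    by_cases hy : Q (ζ y)
    · rw [Finset.sum_eq_single (⟨ζ y, hy, y, rfl⟩ : {i : V // Q i ∧ ∃ y, ζ y = i})]
      · rw [if_pos rfl]
      · intro i _ hi
        rw [if_neg]
        intro h
        exact hi (Subtype.ext h.symm)
      · intro h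
        exact absurd (Finset.mem_univ _) h
    · rw [hF y hy]
      symm
      refine Finset.sum_eq_zero fun i _ => ?_
      rw [if_neg]
      intro h
      exact hy (h ▸ i.2.1)
  rw [Finset.sum_congr rfl fun y _ => h1 y, Finset.sum_comm]
  refine Finset.sum_congr rfl fun i _ => ?_
  rw [← Finset.sum_filter, Finset.sum_const, nsmul_eq_mul]

theorem star_total (ha : Typed s t σ a) (hcn : Conn s σ a) (h : Stat s σ a pr μ)
    (hpr : ∀ e f, s e = s f → pr e = pr f) (hsu : ∀ e, ∃ p, s e = σ p)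
    (hO : Orb (Step s σ a) σ p θ) (hno : NoStable s t σ a)
    (hfl : ∀ e1 e2 i, Flx s t σ a e1 e2 i → NoStable s t σ (flip e1 e2 {i} a) ∧
      Total s σ a (a i e1) (a i e2) ∧ Total s σ (flip e1 e2 {i} a) (a i e2) (a i e1))
    (hex : ∃ e1 e2 i, Flx s t σ a e1 e2 i) : False := by
  obtain ⟨x₀⟩ := ‹Nonempty X›
  have : Nonempty X := ⟨x₀⟩
  set k : K := σ (p x₀) with hk
  have hkx : ∀ x, σ (p x) = k := fun x => hO.typ x x₀
  obtain ⟨Γ, hΓ1, hΓ2⟩ := hO.exists_abs (rr_step ha) x₀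
  have hA : Abs s σ a k Γ p := ⟨hkx, hΓ1, hΓ2⟩
  obtain ⟨w, e1, e2, x, hw, hf, hflx, hrun⟩ := exists_min ha hcn hkx hex
  obtain ⟨hs, ht, hsx, hne⟩ := id hflx
  have hμ := h.mu_pos
  set ζ : X → V := fun y => run a (p y) w with hζ
  have hζσ : ∀ y, σ (ζ y) = s e1 := by
    intro y
    rw [hζ]
    simp only
    rw [ha.run (p y) w (by rw [hkx]; exact hw), hkx, hf]
  let F : Type _ := {i : V // Flx s t σ a e1 e2 i ∧ ∃ y, ζ y = i}
  let J : Option F → V → E → V := fun o => o.elim a fun i => flip e1 e2 {i.1} a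
  have hJT : ∀ o, Typed s t σ (J o) := by
    rintro (_ | i)
    · exact ha
    · exact ha.flip hs ht _
  have hJC : ∀ o, Conn s σ (J o) := by
    rintro (_ | i)
    · exact hcn
    · exact hcn.flip hs _
  have hJS : ∀ o, Stat s σ (J o) pr μ := by
    rintro (_ | i)
    · exact h
    · exact stat_flip h hs (hpr _ _ hs) _
  have hJN : ∀ o, NoStable s t σ (J o) := by
    rintro (_ | i)
    · exact hno
    · exact (hfl e1 e2 i.1 i.2.1).1
  have hJA : ∀ o, Abs s σ (J o) k Γ p := by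
    rintro (_ | i)
    · exact hA
    · exact hA.flip hs _
  have hJR : ∀ o y, run (J o) (p y) w = ζ y := by
    rintro (_ | i) y
    · rfl
    · exact hrun e1 e2 hs ht _ y
  have hJL : ∀ o β g, Rl (Step s σ a) σ p β g → Rl (Step s σ (J o)) σ p β g := by
    rintro (_ | i) β g hg
    · exact hg
    · exact (rl_flip hs _).2 hg
  have hJE : ∀ o i, J o i e1 = J o i e2 ↔ a i e1 = a i e2 := by
    rintro (_ | j) i
    · exact Iff.rfl
    · exact starC_ne _
  -- the separating functions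
  have hex : ∀ o, ∃ f c, Bl s t σ (J o) μ (t e1) f c ∧ f (J o (ζ x) e1) ≠ f (J o (ζ x) e2) := by
    intro o
    have t1 : σ (J o (ζ x) e1) = t e1 := hJT o _ _ hsx
    have t2 : σ (J o (ζ x) e2) = t e1 := by
      rw [ht]
      exact hJT o _ _ (hs ▸ hsx)
    obtain ⟨f, c, h1, h2⟩ := bl_sep hs ht (hJT o) (hJC o) (hJS o) hsu (hJN o)
      (t1.trans t2.symm) (fun h0 => hne ((hJE o _).1 h0))
    rw [t1] at h1
    exact ⟨f, c, h1, h2⟩
  choose f cf hf1 hf2 using hex
  let c : Option F → V → ℝ := fun o q => f o (J o q e1) - f o (J o q e2)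
  have hcz : ∀ o y, ¬ Flx s t σ a e1 e2 (ζ y) → c o (ζ y) = 0 := by
    intro o y hy
    have h1 : a (ζ y) e1 = a (ζ y) e2 := by
      by_contra h2
      exact hy ⟨hs, ht, (hζσ y).symm, h2⟩
    show f o (J o (ζ y) e1) - f o (J o (ζ y) e2) = 0
    rw [(hJE o _).2 h1, sub_self]
  have hAx : ∀ o, (fun y => c o (ζ y)) ∈ Ax s t σ (J o) μ k Γ p := by
    intro o
    have h1 := pull hμ (hJT o) (hJA o) hw (f := c o) (c := 0) (by
      rw [hf]
      exact starC_diff hs ht (hf1 o))
    simpa only [hJR, sub_zero] using h1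
  have hinter : ∀ o o' : Option F, o ≠ o' → ∀ u ∈ Ax s t σ (J o) μ k Γ p,
      u ∈ Ax s t σ (J o') μ k Γ p → u = 0 := by
    rintro (_ | i) (_ | j) hoo u hu hu'
    · exact absurd rfl hoo
    · exact ax_inf hμ hs ht ha j.2.1.2.2.1 (hfl e1 e2 j.1 j.2.1).2.1 hA hu hu'
    · exact ax_inf hμ hs ht ha i.2.1.2.2.1 (hfl e1 e2 i.1 i.2.1).2.1 hA hu' hu
    · have hij : i.1 ≠ j.1 := fun h0 => hoo (by rw [Subtype.ext h0])
      exact star_two ha hcn h hs ht hsu hA hO hno hw (fun δ y => hrun e1 e2 hs ht δ y) hij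
        i.2.1.2.2.1 j.2.1.2.2.1 hf i.2.2 j.2.2 (hfl e1 e2 i.1 i.2.1).2.1 (hfl e1 e2 j.1 j.2.1).2.1
        (hfl e1 e2 i.1 i.2.1).2.2 hu hu'
  refine star_count (F := F) (fun i => ((Finset.univ.filter fun y => ζ y = i.1).card : ℝ)) ?_
    (fun o i => c o i.1) ?_ ?_
  · rintro ⟨i, hi, y, hy⟩
    have : y ∈ Finset.univ.filter (fun y => ζ y = i) := by simp [hy]
    exact_mod_cast Finset.card_pos.2 ⟨y, this⟩
  · intro o
    exact ⟨⟨ζ x, hflx, x, rfl⟩, sub_ne_zero.2 (hf2 o)⟩
  · intro o o' hoo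
    have h1 := perp hO (Ax s t σ (J o) μ k Γ p) (Ax s t σ (J o') μ k Γ p)
      (fun β g hβ u hu => ax_perm (hJT o) (hJA o) (hJL o β g hβ) hu)
      (fun β g hβ u hu => ax_perm (hJT o') (hJA o') (hJL o' β g hβ) hu)
      (hinter o o' hoo) (hAx o) (hAx o')
    have h2 := starC_sum (Q := fun i => Flx s t σ a e1 e2 i) ζ (fun q => c o q * c o' q)
      (fun y hy => by rw [hcz o y hy, zero_mul])
    rw [← h2]
    exact h1

end Pool.Agent.H97.Star
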