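import Pool.Agent.H97.Star.ClsA
import Pool.Agent.H97.Star.StarC
import Pool.Agent.H97.Star.RefB

/-!
# Star lemma: finer types

Part of `MP_644d19_co` (symmetric ends). `Flp s t σ a a'`: `a'` arises from `a` by one exchange of two
parallel letters at one state; `AllBad`: no automaton that arises by a sequence of such exchanges has a
stable pair.

`star_all`, by strong induction on the number `n` of pairs `(x, y)` with `σ x = σ y`.
Case 1: for all `a'` with `ReflTransGen (Flp s t σ) a a'` and all flexible `(e1, e2, i)` of `a'` the pair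
`(a' i e1, a' i e2)` is total. Then `star_total` for `a` (`exists_pr`, `exists_stat`; every state has a letter:
`exists_letter`; `hsu`: restrict to... see below), a contradiction. (`flip e1 e2 {i} a` is reachable, and
`(flip e1 e2 {i} a) i e1 = a i e2`, `flip_left`, `flip_right`; it is flexible there for `e1, e2`; hence total.)
Case 2: `a'`, `e1, e2, i` with `¬ Total`. As in the proof of `flip_eight` (`Bun/Loc.lean`) with `a'`, `x = i`,
`y = a' i e1`, `y' = a' i e2`: the types `V / Cgr`, the letters `NewE`, `σ', s', t', φ, b`, `hout`, `hfine`, `hact`,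
`hlift`, `hb`. New system: typed, `Conn` (`conn_trans`), `hsu'` (`⟨out, _⟩`), flexible at `i` for `e1', e2'`.
`AllBad`: `flp_lift`: if `b₁` arises from `b` by exchanges, there is `a₁` arising from `a'` by exchanges with
`∀ p f, s' f = σ' p → b₁ p f = a₁ p (φ f)` (induction; one exchange of `f1, f2` at `x` with `s' f1 = s' f2 = σ' x`,
`t' f1 = t' f2` corresponds to the exchange of `φ f1, φ f2` at `x` (`hsw` in `flip_eight`), and
`s (φ f1) = s (φ f2)`, `t (φ f1) = t (φ f2)` by `hact`, `ha` and `hfine`); then `noStable_trans`.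
`Orb`: `Step s' σ' b = Step s σ a' = Step s σ a` (`hact`, `hlift`, `step_flip`), and `Orb.refine` with
`g : V / Cgr → K`, `g = Quotient.lift σ` (`cgr_type`), `rr_step hb`. The number of pairs of the same type is
smaller: `hfine`, and `Cgr` is not all of it (`¬ Total` gives a congruence `R` with `R y y'` and a pair `σ p = σ q`,
`¬ R p q`, so `¬ Cgr p q`).
-/

set_option autoImplicit false

namespace Pool.Agent.H97.Star

open Pool.Agent.H75.Bunchy Pool.Agent.H26.Bunchy Pool.Agent.H97.Bun Pool.Agent.H97.Cyc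
open scoped Classical

/-- what is preserved by exchanges -/
private lemma flp_reach {V K E : Type*} {s t : E → K} {σ : V → K} {a a' : V → E → V}
    (ha : Typed s t σ a) (h : Relation.ReflTransGen (Flp s t σ) a a') :
    Typed s t σ a' ∧ Step s σ a' = Step s σ a := by
  induction h with
  | refl => exact ⟨ha, rfl⟩
  | tail _ h2 ih =>
    obtain ⟨i1, i2⟩ := ih
    obtain ⟨e1, e2, x, hs, ht, -, rfl⟩ := h2
    refine ⟨Typed.flip hs ht i1 {x}, ?_⟩
    rw [← i2]
    funext p q
    exact propext (step_flip hs {x} p q)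

private lemma star_all_aux {V : Type} [Finite V] (n : ℕ) : ∀ {K E X : Type} [Finite E] [Finite X]
    [Nonempty X] {s t : E → K} {σ : V → K} {a : V → E → V} {p : X → V} {θ : X → X},
    {q : V × V | σ q.1 = σ q.2}.ncard = n → Typed s t σ a → Conn s σ a →
    (∀ e, ∃ p, s e = σ p) → Orb (Step s σ a) σ p θ → (∃ e1 e2 i, Flx s t σ a e1 e2 i) →
    ¬ AllBad s t σ a := by
  induction n using Nat.strong_induction_on with
  | _ n ih =>
  intro K E X _ _ _ s t σ a p θ hn ha hcn hsu hO hex hAB
  by_cases hT : ∀ a', Relation.ReflTransGen (Flp s t σ) a a' → ∀ e1 e2 i, Flx s t σ a' e1 e2 i →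
      Total s σ a' (a' i e1) (a' i e2)
  · -- the total case
    have hV : Fintype V := Fintype.ofFinite V
    have hE : Fintype E := Fintype.ofFinite E
    have hX : Fintype X := Fintype.ofFinite X
    obtain ⟨x₀⟩ : Nonempty X := inferInstance
    have hne0 : Nonempty V := ⟨p x₀⟩
    obtain ⟨pr, hpr0, hpr1, hpr2⟩ := exists_pr s
    obtain ⟨f1, f2, i₀, -, -, -, hi₀⟩ := id hex
    obtain ⟨μ, hμ⟩ := exists_stat ha hcn hpr0 (fun p => hpr2 (σ p) (exists_letter hcn hi₀ p))
    refine star_total ha hcn hμ hpr1 hsu hO (hAB a Relation.ReflTransGen.refl) ?_ hex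
    intro e1 e2 i hF
    obtain ⟨hs, ht, hx, hne⟩ := id hF
    have hr : Relation.ReflTransGen (Flp s t σ) a (flip e1 e2 {i} a) :=
      Relation.ReflTransGen.single ⟨e1, e2, i, hs, ht, hx, rfl⟩
    have hF' : Flx s t σ (flip e1 e2 {i} a) e1 e2 i := by
      refine ⟨hs, ht, hx, ?_⟩
      rw [flip_left (Set.mem_singleton i), flip_right (Set.mem_singleton i)]
      exact hne.symm
    have h1 := hT _ hr e1 e2 i hF'
    rw [flip_left (Set.mem_singleton i), flip_right (Set.mem_singleton i)] at h1
    exact ⟨hAB _ hr, hT a Relation.ReflTransGen.refl e1 e2 i hF, h1⟩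
  · -- finer types
    push Not at hT
    obtain ⟨a', hra, e1, e2, x, ⟨hs, ht, hx, hne⟩, hnT⟩ := hT
    obtain ⟨ha', hst⟩ := flp_reach ha hra
    have hcn1 : Conn s σ a' := by
      unfold Conn
      rw [hst]
      exact hcn
    have hx2 : s e2 = σ x := by rw [← hs]; exact hx
    set y := a' x e1 with hy
    set y' := a' x e2 with hy'
    have hyy : σ y = σ y' := by rw [hy, hy', ha' x e1 hx, ha' x e2 hx2, ht]
    -- new types and letters
    let S : Setoid V := cset s σ a' y y'
    let σ' : V → Quotient S := fun p => Quotient.mk S p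
    let s' : NewE s σ a' y y' → Quotient S := fun f => f.1.1
    let t' : NewE s σ a' y y' → Quotient S := fun f => Quotient.mk S (a' (Quotient.out f.1.1) f.1.2)
    let φ : NewE s σ a' y y' → E := fun f => f.1.2
    let b : V → NewE s σ a' y y' → V := fun p f => a' p f.1.2
    have hfin : Finite (NewE s σ a' y y') := by
      unfold NewE
      infer_instance
    have hout : ∀ p, Cgr s σ a' y y' (Quotient.out (σ' p)) p := fun p => Quotient.mk_out (s := S) p
    have hout' : ∀ p, Cgr s σ a' y y' p (Quotient.out (σ' p)) := fun p =>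
      (cgr_equiv s σ a' y y').symm (hout p)
    have hfine : ∀ p q, σ' p = σ' q → σ p = σ q := fun p q h =>
      cgr_type ha' hyy (Quotient.exact h : Cgr s σ a' y y' p q)
    have hact : ∀ p f, s' f = σ' p → s (φ f) = σ p ∧ b p f = a' p (φ f) := by
      intro p f hf
      refine ⟨?_, rfl⟩
      have h1 : s (φ f) = σ (Quotient.out (s' f)) := f.2
      rw [h1, hf]
      exact cgr_type ha' hyy (hout p)
    have hlift : ∀ p e, s e = σ p → ∃ f, s' f = σ' p ∧ φ f = e := by
      intro p e he
      refine ⟨⟨(σ' p, e), ?_⟩, rfl, rfl⟩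
      rw [he]
      exact cgr_type ha' hyy (hout' p)
    have hb : Typed s' t' σ' b := by
      intro p f hf
      have h1 : s (φ f) = σ p := (hact p f hf).1
      have h2 : Cgr s σ a' y y' (a' p (φ f)) (a' (Quotient.out (s' f)) (φ f)) := by
        rw [hf]
        exact cgr_letter (hout' p) h1
      exact Quotient.sound (s := S) h2
    have hxe1 : s e1 = σ (Quotient.out (σ' x)) := by
      rw [hx]; exact cgr_type ha' hyy (hout' x)
    have hxe2 : s e2 = σ (Quotient.out (σ' x)) := by
      rw [hx2]; exact cgr_type ha' hyy (hout' x)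
    let e1' : NewE s σ a' y y' := ⟨(σ' x, e1), hxe1⟩
    let e2' : NewE s σ a' y y' := ⟨(σ' x, e2), hxe2⟩
    have hs' : s' e1' = s' e2' := rfl
    have ht' : t' e1' = t' e2' := by
      rw [← hb x e1' rfl, ← hb x e2' rfl]
      exact Quotient.sound (s := S) (cgr_mem : Cgr s σ a' y y' y y')
    have hinj : ∀ f f', s' f = s' f' → φ f = φ f' → f = f' := fun f f' h1 h2 =>
      Subtype.ext (Prod.ext h1 h2)
    have hcn' : Conn s' σ' b := conn_trans hact hlift hcn1
    have hsu' : ∀ f, ∃ p, s' f = σ' p := fun f =>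
      ⟨Quotient.out (s' f), (Quotient.out_eq (s' f)).symm⟩
    -- the number of pairs
    have hlt : {q : V × V | σ' q.1 = σ' q.2}.ncard < n := by
      rw [← hn]
      refine Set.ncard_lt_ncard ?_ (Set.toFinite _)
      rw [Set.ssubset_iff_subset_ne]
      refine ⟨fun q hq => hfine _ _ hq, fun heq => ?_⟩
      apply hnT
      intro R hR h1 h2 h3 u v huv
      have hm : (u, v) ∈ {q : V × V | σ' q.1 = σ' q.2} := by
        rw [heq]
        exact huv
      have hc : Cgr s σ a' y y' u v := Quotient.exact hm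
      exact hc R hR h1 h2 h3
    -- symmetric ends
    have hst' : Step s' σ' b = Step s σ a := by
      rw [← hst]
      funext u v
      apply propext
      constructor
      · rintro ⟨f, hf, hv⟩
        obtain ⟨h1, h2⟩ := hact u f hf
        exact ⟨φ f, h1, by rw [← h2]; exact hv⟩
      · rintro ⟨e, he, hv⟩
        obtain ⟨f, hf, hφ⟩ := hlift u e he
        exact ⟨f, hf, by rw [(hact u f hf).2, hφ]; exact hv⟩
    obtain ⟨x₀⟩ : Nonempty X := inferInstance
    let g : Quotient S → K := Quotient.lift σ (fun u v huv => cgr_type ha' hyy huv)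
    obtain ⟨X', hX1, hX2, p', θ', hO'⟩ := Orb.refine (τ' := σ') (g := g) (fun _ => rfl)
      (by rw [← hst']; exact rr_step hb) hO x₀
    rw [← hst'] at hO'
    refine ih _ hlt rfl hb hcn' hsu' hO' ⟨e1', e2', x, hs', ht', rfl, hne⟩ ?_
    intro b₁ hb₁
    obtain ⟨a₁, r1, r2, r3, r4⟩ := flp_lift ha' hb hact hinj hfine hb₁
    exact noStable_trans r2 r3 r4 hlift hfine (hAB a₁ (hra.trans r1))

theorem star_all {V K E X : Type} [Finite V] [Finite E] [Finite X] [Nonempty X] {s t : E → K}
    {σ : V → K} {a : V → E → V} {p : X → V} {θ : X → X} (ha : Typed s t σ a)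
    (hcn : Conn s σ a) (hsu : ∀ e, ∃ p, s e = σ p) (hO : Orb (Step s σ a) σ p θ)
    (hex : ∃ e1 e2 i, Flx s t σ a e1 e2 i) : ¬ AllBad s t σ a := by
  exact star_all_aux _ rfl ha hcn hsu hO hex

end Pool.Agent.H97.Star
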