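import Pool.Agent.H97.Star.ClsB
import Pool.Agent.H97.Bun.Main8

/-!
# Bunchy synchronizing factors and symmetric ends
-/

set_option autoImplicit false

namespace Pool.Agent.H97.Star

open Pool.Agent.H75.Bunchy Pool.Agent.H26.Bunchy Pool.Agent.H97.Bun
open scoped Classical

/-- Over the sequence `β` of vertices of `H` the paths of `G` from `p x` end in `p (g x)` only (and
there is such a path), for all `x`. -/
def Realises {G H : Graph} {X : Type} (v : G.V → H.V) (p : X → G.V) (β : List H.V)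
    (g : Equiv.Perm X) : Prop :=
  ∀ x t, Along v (p x) β t ↔ t = p (g x)

/-- A symmetric family of ends: vertices `p x` (`x ∈ X`) of `G` over the same vertex of `H`, and a
map `θ : X → X`, such that
* for all `x, y ∈ X` some permutation `g` of `X` with `g x = θ y`, `g y = θ x` is realised by a
  sequence of vertices of `H`;
* from every vertex `q` over the same vertex of `H` as the `p x` some `p y` is reached over a
  sequence that realises a permutation of `X`. -/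
structure SymEnds {G H : Graph} {X : Type} (v : G.V → H.V) (p : X → G.V) (θ : X → X) : Prop where
  typ : ∀ x y, v (p x) = v (p y)
  sym : ∀ x y, ∃ β g, Realises v p β g ∧ g x = θ y ∧ g y = θ x
  absorb : ∀ q x, v q = v (p x) → ∃ β g y, Realises v p β g ∧ Along v q β (p y)

section
variable {G H Q : Graph}

lemma al_iff (v : G.V → H.V) (q t : G.V) (β : List H.V) :
    Al (fun p q => q ∈ G.Followers p) v q β t ↔ Along v q β t := by
  induction β generalizing q with
  | nil => exact Iff.rfl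
  | cons κ β ih =>
    constructor
    · rintro ⟨q', ⟨h1, h2⟩, h3⟩
      exact ⟨q', ⟨h1, h2⟩, (ih q').1 h3⟩
    · rintro ⟨q', ⟨h1, h2⟩, h3⟩
      exact ⟨q', ⟨h1, h2⟩, (ih q').2 h3⟩

private lemma rl_iff {X : Type} (v : G.V → H.V) (p : X → G.V) (β : List H.V)
    (g : Equiv.Perm X) :
    Rl (fun p q => q ∈ G.Followers p) v p β g ↔ Realises v p β g := by
  constructor
  · intro h x t
    rw [← al_iff]
    exact h x t
  · intro h x t
    rw [al_iff]
    exact h x t

lemma orb_iff {X : Type} (v : G.V → H.V) (p : X → G.V) (θ : X → X) :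
    Orb (fun p q => q ∈ G.Followers p) v p θ ↔ SymEnds v p θ := by
  constructor
  · rintro ⟨h1, h2, h3⟩
    refine ⟨h1, ?_, ?_⟩
    · intro x y
      obtain ⟨β, g, a, b, c⟩ := h2 x y
      exact ⟨β, g, (rl_iff v p β g).1 a, b, c⟩
    · intro q x hq
      obtain ⟨β, g, y, a, b⟩ := h3 q x hq
      exact ⟨β, g, y, (rl_iff v p β g).1 a, (al_iff v q _ β).1 b⟩
  · rintro ⟨h1, h2, h3⟩
    refine ⟨h1, ?_, ?_⟩
    · intro x y
      obtain ⟨β, g, a, b, c⟩ := h2 x y
      exact ⟨β, g, (rl_iff v p β g).2 a, b, c⟩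
    · intro q x hq
      obtain ⟨β, g, y, a, b⟩ := h3 q x hq
      exact ⟨β, g, y, (rl_iff v p β g).2 a, (al_iff v q _ β).2 b⟩

/-- symmetric ends pass to factors -/
lemma SymEnds.image {X : Type} (Ψ : RightResolver G Q) (w : Q.V → H.V) (v : G.V → H.V)
    (hv : ∀ q, w (Ψ.v q) = v q) {p : X → G.V} {θ : X → X} (h : SymEnds v p θ) :
    SymEnds w (fun x => Ψ.v (p x)) θ := by
  rw [← orb_iff] at h ⊢
  refine Orb.image (fun q => Ψ.v q) hv Ψ.v_surj ?_ ?_ h
  · intro q q' hq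
    have hq' : q' ∈ G.Followers q := hq
    change Ψ.v q' ∈ Q.Followers (Ψ.v q)
    rw [followers_image]
    exact ⟨q', hq', rfl⟩
  · intro q w' hw
    have hw' : w' ∈ Q.Followers (Ψ.v q) := hw
    rw [followers_image] at hw'
    obtain ⟨q', h1, h2⟩ := hw'
    exact ⟨q', h1, h2⟩

/-- all automata that arise by exchanges are recolourings -/
lemma exists_of_flp (Φ : RightResolver G H) {a' : G.V → H.E → G.V}
    (h : Relation.ReflTransGen (Flp H.src H.tgt Φ.v) Φ.act a') :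
    ∃ Φ' : RightResolver G H, Φ'.v = Φ.v ∧ Φ'.act = a' := by
  induction h with
  | refl => exact ⟨Φ, rfl, rfl⟩
  | tail _ h2 ih =>
    obtain ⟨Φ₁, hv, ha⟩ := ih
    obtain ⟨e1, e2, x, hs, ht, -, rfl⟩ := h2
    obtain ⟨Φ₂, hv2, ha2⟩ := Φ₁.exists_flip hs ht {x}
    exact ⟨Φ₂, hv2.trans hv, by rw [ha2, ha]⟩

theorem symEnds_step (Φ : RightResolver G H) (hG : G.StronglyConnected) {X : Type} [Finite X]
    [Nonempty X] {p : X → G.V} {θ : X → X} (h : SymEnds Φ.v p θ) {p₀ : G.V} {g g' : H.E}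
    (hsg : H.src g = Φ.v p₀) (hsg' : H.src g' = H.src g) (htg' : H.tgt g' = H.tgt g)
    (hne : Φ.act p₀ g ≠ Φ.act p₀ g') :
    ∃ Φ' : RightResolver G H, Φ'.v = Φ.v ∧ ¬ NoStable H.src H.tgt Φ'.v Φ'.act := by
  by_contra hcon
  push Not at hcon
  have hstep : Step H.src Φ.v Φ.act = fun p q => q ∈ G.Followers p := by
    funext u w
    exact propext (Φ.step_iff u w)
  have hO : Orb (Step H.src Φ.v Φ.act) Φ.v p θ := by
    rw [hstep]
    exact (orb_iff _ _ _).2 h
  refine star_all Φ.act_typed (Φ.conn hG) ?_ hO ⟨g, g', p₀, hsg'.symm, htg'.symm, hsg, hne⟩ ?_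
  · intro e
    obtain ⟨q, hq⟩ := Φ.v_surj (H.src e)
    exact ⟨q, hq.symm⟩
  · intro a' ha'
    obtain ⟨Φ', hv, ha⟩ := exists_of_flp Φ ha'
    have h1 := hcon Φ' hv
    rw [hv, ha] at h1
    exact h1

end

/-- **Main theorem.** -/
theorem main10 (G B : Graph) (hG : G.StronglyConnected) (hB : IsBunchy B) (Φ : RightResolver G B)
    {X : Type} [Finite X] [Nonempty X] (p : X → G.V) (θ : X → X) (h : SymEnds Φ.v p θ) :
    ∃ H : Graph, IsBunchy H ∧ ∃ Ψ : RightResolver G H, Ψ.Synchronizing := by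
  obtain ⟨Q, Θ, Ψ, hΨ, _, hbij⟩ := relative_of B
    (fun G v => ∃ (p : X → G.V), SymEnds v p θ)
    (fun G Q Φ Ψ w hv ⟨p, h⟩ => ⟨_, SymEnds.image Ψ w Φ.v hv h⟩)
    (fun G Φ hG ⟨p, h⟩ p₀ g g' hsg hsg' htg' hne => symEnds_step Φ hG h hsg hsg' htg' hne)
    _ G rfl hG Φ ⟨p, h⟩
  obtain ⟨M, hM, Λ, hΛ⟩ := hB
  refine ⟨Q, ⟨M, hM, RightResolver.comp Λ Θ, fun I => ?_⟩, Ψ, hΨ⟩
  exact (hΛ (Θ.v I)).comp (hbij I)

end Pool.Agent.H97.Star
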