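import Pool.Agent.H97.Star.OprB
import Pool.Agent.H97.Cyc.Lim

/-!
# Star lemma: the balanced functions on the symmetric ends

Part of `MP_644d19_co` (symmetric ends). `Abs s σ a k Γ p`: the `p x` have type `k`, over `Γ` the
paths from `p x` end in `p x` only, and every state of type `k` reaches some `p y` over `Γ`.

* `abs_word`: a valid word `w` from `k` with `w.map t = β`, `fin t k w = k`, if `Rl β g` (`al_word` at
  `p x`, `ha.run`).
* `ax_of_bl`: let `C = ∑ q, |φ q|` and `S = {ψ | (∀ q, |ψ q| ≤ C) ∧ Bl k ψ 0 ∧ ∀ x, ψ (p x) = φ (p x)}`.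
  `S` is compact (closed: `mean` is a finite sum, so continuous in `ψ`; bounded), convex (`bl_add`,
  `bl_smul`), contains `φ`, invariant under `Mo Γ` (`mo_bound`, `bl_mo` with `abs_word`, `mo_eq` with
  `Rl Γ 1`). `exists_fixed` (`Cyc/Lim.lean`) gives `ψ ∈ S` with `Mo Γ ψ = ψ`. (See `to_harm` in
  `Cyc/HarmB.lean` for the same argument.)
* `ax_perm`: `ψ` for `u`; apply `ax_of_bl` to `φ = Mo β ψ` (`bl_mo` with `abs_word`), `φ (p x) = ψ (p (g x))`
  (`mo_eq`).
* `ax_const`: `ψ` for the constant `c`; `ψ - c` is fixed by `Mo Γ` at the states of type `k` (`mo_eq` for the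
  constant function: over `Γ` there is an end) and `0` at the `p x`, so `ψ = c` on type `k`
  (`mo_zero`); its mean at `k` (`v = []`) is `0`, and is `c` (`mean_congr`, `mean_const`).
* `ax_inf`: `ψ` for `a`, `ψ'` for `a' = flip e1 e2 {x} a`; `Mo` is the same (`mo_flip`), so `ψ - ψ'` is fixed
  and `0` on the `p x`: `ψ = ψ'` on type `k` (`mo_zero`). So `ψ` is balanced for `a` and for `a'`
  (`bl_congr` with `ha.flip`); `const_nil` (with `bl_iff e1 e2`) gives `ψ = 0` on type `k`.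
* `bl_sep`: `exists_sep` gives `w`; `f y = if run a y w = run a z w then 1 else 0` is balanced by
  `bal_class` with `u = []` (`run a z w ∈ img σ a (σ z) w`), `f z = 1`, `f z' = 0`.
-/

set_option autoImplicit false

namespace Pool.Agent.H97.Star

open Pool.Agent.H75.Bunchy Pool.Agent.H26.Bunchy Pool.Agent.H97.Bun Pool.Agent.H97.Cyc
open scoped Classical

/-- absorbing walk over which the `p x` return to themselves -/
structure Abs {V K E X : Type*} (s : E → K) (σ : V → K) (a : V → E → V) (k : K) (Γ : List K)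
    (p : X → V) : Prop where
  typ : ∀ x, σ (p x) = k
  one : Rl (Step s σ a) σ p Γ 1
  abs : ∀ q, σ q = k → ∃ y, Al (Step s σ a) σ q Γ (p y)

variable {V K E X : Type*} [Fintype V] [Fintype E] {s t : E → K} {σ : V → K} {a : V → E → V}
  {e1 e2 : E} {μ : V → ℝ} {pr : E → ℝ} {p : X → V} {k : K} {Γ : List K}

omit [Fintype V] [Fintype E] in
lemma Abs.flip (hA : Abs s σ a k Γ p) (hs : s e1 = s e2) (δ : Set V) :
    Abs s σ (flip e1 e2 δ a) k Γ p := by
  have h : Step s σ (H75.Bunchy.flip e1 e2 δ a) = Step s σ a := by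
    funext q q'
    exact propext (step_flip hs δ q q')
  exact ⟨hA.typ, by rw [h]; exact hA.one, by rw [h]; exact hA.abs⟩

omit [Fintype V] [Fintype E] in
lemma abs_word (ha : Typed s t σ a) (hk : ∀ x, σ (p x) = k) (x : X) {β : List K}
    {g : Equiv.Perm X} (hβ : Rl (Step s σ a) σ p β g) :
    ∃ w, Valid s t k w ∧ w.map t = β ∧ fin t k w = k := by
  have h1 : Al (Step s σ a) σ (p x) β (p (g x)) := (hβ x (p (g x))).2 rfl
  obtain ⟨w, hw, hwβ, hr⟩ := (al_word ha).1 h1
  have h2 := ha.run (p x) w hw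
  rw [hr, hk (g x), hk x] at h2
  rw [hk x] at hw
  exact ⟨w, hw, hwβ, h2.symm⟩

private lemma mean_cont (σ : V → K) (μ : V → ℝ) (j : K) (g : V → V) :
    Continuous fun ψ : V → ℝ => mean σ μ j (fun q => ψ (g q)) := by
  unfold mean
  refine continuous_finsetSum _ fun q _ => ?_
  by_cases hq : σ q = j
  · simp only [hq, if_true]
    exact continuous_const.mul (continuous_apply _)
  · simp only [hq, if_false]
    exact continuous_const

omit [Fintype E] in
private lemma set_closed (C : ℝ) (φ : V → ℝ) :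
    IsClosed {ψ : V → ℝ | (∀ q, |ψ q| ≤ C) ∧ Bl s t σ a μ k ψ 0 ∧ ∀ x, ψ (p x) = φ (p x)} := by
  refine IsClosed.inter ?_ (IsClosed.inter ?_ ?_)
  · have : {ψ : V → ℝ | ∀ q, |ψ q| ≤ C} = ⋂ q, {ψ : V → ℝ | |ψ q| ≤ C} := by
      ext ψ; simp
    change IsClosed {ψ : V → ℝ | ∀ q, |ψ q| ≤ C}
    rw [this]
    exact isClosed_iInter fun q => isClosed_le (continuous_abs.comp (continuous_apply q))
      continuous_const
  · have : {ψ : V → ℝ | Bl s t σ a μ k ψ 0} =
        ⋂ (j : K) (v : List E) (_ : ∃ q, σ q = j) (_ : Valid s t j v) (_ : fin t j v = k),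
          {ψ : V → ℝ | mean σ μ j (fun q => ψ (run a q v)) = 0} := by
      ext ψ
      simp only [Set.mem_ofPred_eq, Set.mem_iInter]
      rfl
    change IsClosed {ψ : V → ℝ | Bl s t σ a μ k ψ 0}
    rw [this]
    exact isClosed_iInter fun j => isClosed_iInter fun _ => isClosed_iInter fun _ =>
      isClosed_iInter fun _ => isClosed_iInter fun _ =>
      isClosed_eq (mean_cont σ μ j _) continuous_const
  · have : {ψ : V → ℝ | ∀ x, ψ (p x) = φ (p x)} = ⋂ x : X, {ψ : V → ℝ | ψ (p x) = φ (p x)} := by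
      ext ψ
      simp only [Set.mem_ofPred_eq, Set.mem_iInter]
    change IsClosed {ψ : V → ℝ | ∀ x, ψ (p x) = φ (p x)}
    rw [this]
    exact isClosed_iInter fun x => isClosed_eq (continuous_apply _) continuous_const

theorem ax_of_bl (ha : Typed s t σ a) (hA : Abs s σ a k Γ p) [Nonempty X] {φ : V → ℝ}
    (h : Bl s t σ a μ k φ 0) : (fun x => φ (p x)) ∈ Ax s t σ a μ k Γ p := by
  set C : ℝ := ∑ q, |φ q| with hCdef
  have hC0 : 0 ≤ C := Finset.sum_nonneg fun q _ => abs_nonneg _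
  set S : Set (V → ℝ) := {ψ : V → ℝ | (∀ q, |ψ q| ≤ C) ∧ Bl s t σ a μ k ψ 0 ∧
      ∀ x, ψ (p x) = φ (p x)} with hS
  have hclosed : IsClosed S := set_closed C φ
  have hbdd : Bornology.IsBounded S := by
    refine (Metric.isBounded_iff_subset_closedBall (0 : V → ℝ)).2 ⟨C, fun ψ hψ => ?_⟩
    rw [mem_closedBall_zero_iff]
    exact (pi_norm_le_iff_of_nonneg hC0).2 fun q => by
      rw [Real.norm_eq_abs]; exact hψ.1 q
  have hcomp : IsCompact S := Metric.isCompact_of_isClosed_isBounded hclosed hbdd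
  have hconv : Convex ℝ S := by
    intro f hf g hg r q hr hq hrq
    refine ⟨fun z => ?_, ?_, fun x => ?_⟩
    · rw [Pi.add_apply, Pi.smul_apply, Pi.smul_apply, smul_eq_mul, smul_eq_mul]
      calc |r * f z + q * g z| ≤ |r * f z| + |q * g z| := abs_add_le _ _
        _ = r * |f z| + q * |g z| := by rw [abs_mul, abs_mul, abs_of_nonneg hr, abs_of_nonneg hq]
        _ ≤ r * C + q * C := add_le_add (mul_le_mul_of_nonneg_left (hf.1 z) hr)
            (mul_le_mul_of_nonneg_left (hg.1 z) hq)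
        _ = C := by rw [← add_mul, hrq, one_mul]
    · have h1 := bl_add (bl_smul r hf.2.1) (bl_smul q hg.2.1)
      rwa [mul_zero, mul_zero, add_zero] at h1
    · rw [Pi.add_apply, Pi.smul_apply, Pi.smul_apply, smul_eq_mul, smul_eq_mul,
        hf.2.2 x, hg.2.2 x, ← add_mul, hrq, one_mul]
  have hne : S.Nonempty := by
    refine ⟨φ, fun q => ?_, h, fun _ => rfl⟩
    exact Finset.single_le_sum (f := fun q => |φ q|) (fun q _ => abs_nonneg _) (Finset.mem_univ q)
  obtain ⟨w, hw, hwΓ, hwk⟩ := abs_word ha hA.typ (Classical.arbitrary X) hA.one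
  have hinv : ∀ ψ ∈ S, Mo s t σ a Γ ψ ∈ S := by
    intro ψ hψ
    refine ⟨fun q => mo_bound Γ hC0 hψ.1 q, ?_, fun x => ?_⟩
    · have h1 : Bl s t σ a μ k (Mo s t σ a (w.map t) ψ) 0 := bl_mo ha hw (by
        rw [hwk]; exact hψ.2.1)
      rwa [hwΓ] at h1
    · refine mo_eq ha (fun z hz => ?_) ⟨p x, ?_⟩
      · have h1 := (hA.one x z).1 hz
        rw [h1]
        exact hψ.2.2 x
      · exact (hA.one x (p x)).2 rfl
  obtain ⟨ψ, hψS, hψ⟩ := exists_fixed (Mo s t σ a Γ) hcomp hconv hne hinv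
  exact ⟨ψ, fun q _ => by rw [hψ], hψS.2.1, hψS.2.2⟩

end Pool.Agent.H97.Star
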