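import Pool.Agent.H97.Star.Defs

/-!
# Star lemma: finer types

Part of `MP_644d19_co` (symmetric ends). `Flp s t σ a a'`: `a'` arises from `a` by one exchange of two
parallel letters at one state; `AllBad`: no automaton that arises by a sequence of such exchanges has a
stable pair.

`star_all`, by strong induction on the number `n` of pairs `(x, y)` with `σ x = σ y`.
Case 1: for all `a'` with `ReflTransGen (Flp s t σ) a a'` and all flexible `(e1, e2, i)` of `a'` the pair
`(a' i e1, a' i e2)` is total. Then `star_total` for `a` (`exists_pr`, `exists_stat`; every state has a letter: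
`exists_letter`; `hsu`: restrict to... see below), a contradiction. (`flip e1 e2 {i} a` is reachable, and
`(flip e1 e2 {i} a) i e1 = a i e2`, `flip_left`, `flip_right`; it is flexible there for `e1, e2`; hence total.)
Case 2: `a'`, `e1, e2, i` with `¬ Total`. As in the proof of `flip_eight` (`Bun/Loc.lean`) with `a'`, `x = i`,
`y = a' i e1`, `y' = a' i e2`: the types `V / Cgr`, the letters `NewE`, `σ', s', t', φ, b`, `hout`, `hfine`, `hact`,
`hlift`, `hb`. New system: typed, `Conn` (`conn_trans`), `hsu'` (`⟨out, _⟩`), flexible at `i` for `e1', e2'`.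
`AllBad`: `flp_lift`: if `b₁` arises from `b` by exchanges, there is `a₁` arising from `a'` by exchanges with
`∀ p f, s' f = σ' p → b₁ p f = a₁ p (φ f)` (induction; one exchange of `f1, f2` at `x` with `s' f1 = s' f2 = σ' x`,
`t' f1 = t' f2` corresponds to the exchange of `φ f1, φ f2` at `x` (`hsw` in `flip_eight`), and
`s (φ f1) = s (φ f2)`, `t (φ f1) = t (φ f2)` by `hact`, `ha` and `hfine`); then `noStable_trans`.
`Orb`: `Step s' σ' b = Step s σ a' = Step s σ a` (`hact`, `hlift`, `step_flip`), and `Orb.refine` with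
`g : V / Cgr → K`, `g = Quotient.lift σ` (`cgr_type`), `rr_step hb`. The number of pairs of the same type is
smaller: `hfine`, and `Cgr` is not all of it (`¬ Total` gives a congruence `R` with `R y y'` and a pair `σ p = σ q`,
`¬ R p q`, so `¬ Cgr p q`).
-/

set_option autoImplicit false

namespace Pool.Agent.H97.Star

open Pool.Agent.H75.Bunchy Pool.Agent.H26.Bunchy Pool.Agent.H97.Bun Pool.Agent.H97.Cyc
open scoped Classical

/-- one exchange of two parallel letters at one state -/
def Flp {V K E : Type*} (s t : E → K) (σ : V → K) (a a' : V → E → V) : Prop :=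
  ∃ e1 e2 x, s e1 = s e2 ∧ t e1 = t e2 ∧ s e1 = σ x ∧ a' = flip e1 e2 {x} a

/-- no automaton that arises by exchanges has a stable pair -/
def AllBad {V K E : Type*} (s t : E → K) (σ : V → K) (a : V → E → V) : Prop :=
  ∀ a', Relation.ReflTransGen (Flp s t σ) a a' → NoStable s t σ a'

/-- exchanges of a refined automaton come from exchanges -/
theorem flp_lift {V K E K' E' : Type*} {s t : E → K} {σ : V → K} {a : V → E → V}
    {s' t' : E' → K'} {σ' : V → K'} {b : V → E' → V} {φ : E' → E} (ha : Typed s t σ a)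
    (hb : Typed s' t' σ' b)
    (hact : ∀ p f, s' f = σ' p → s (φ f) = σ p ∧ b p f = a p (φ f))
    (hinj : ∀ f f', s' f = s' f' → φ f = φ f' → f = f')
    (hfine : ∀ p q, σ' p = σ' q → σ p = σ q) {b₁ : V → E' → V}
    (h : Relation.ReflTransGen (Flp s' t' σ') b b₁) :
    ∃ a₁, Relation.ReflTransGen (Flp s t σ) a a₁ ∧ Typed s t σ a₁ ∧
      Typed s' t' σ' b₁ ∧ ∀ p f, s' f = σ' p → s (φ f) = σ p ∧ b₁ p f = a₁ p (φ f) := by
  induction h with
  | refl => exact ⟨a, Relation.ReflTransGen.refl, ha, hb, hact⟩
  | @tail b₂ b₃ _ hst ih =>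
    obtain ⟨a₂, h1, h2, h3, h4⟩ := ih
    obtain ⟨f1, f2, x, hs', ht', hx, rfl⟩ := hst
    have hx2 : s' f2 = σ' x := by rw [← hs', hx]
    have e1 := h4 x f1 hx
    have e2 := h4 x f2 hx2
    have hs : s (φ f1) = s (φ f2) := by rw [e1.1, e2.1]
    have ht : t (φ f1) = t (φ f2) := by
      rw [← h2 x (φ f1) e1.1, ← h2 x (φ f2) e2.1, ← e1.2, ← e2.2]
      refine hfine _ _ ?_
      rw [h3 x f1 hx, h3 x f2 hx2, ht']
    refine ⟨flip (φ f1) (φ f2) {x} a₂, h1.tail ⟨φ f1, φ f2, x, hs, ht, e1.1, rfl⟩,
      Typed.flip hs ht h2 {x}, Typed.flip hs' ht' h3 {x}, fun p f hf => ⟨(h4 p f hf).1, ?_⟩⟩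
    by_cases hp : p = x
    · subst hp
      rw [flip_of_mem (Set.mem_singleton p), flip_of_mem (Set.mem_singleton p)]
      by_cases c1 : f = f1
      · rw [c1, Equiv.swap_apply_left, Equiv.swap_apply_left]
        exact e2.2
      · by_cases c2 : f = f2
        · rw [c2, Equiv.swap_apply_right, Equiv.swap_apply_right]
          exact e1.2
        · rw [Equiv.swap_apply_of_ne_of_ne c1 c2, Equiv.swap_apply_of_ne_of_ne]
          · exact (h4 p f hf).2
          · intro h5
            exact c1 (hinj f f1 (by rw [hf, hx]) h5)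
          · intro h5
            exact c2 (hinj f f2 (by rw [hf, hx2]) h5)
    · have hp' : p ∉ ({x} : Set V) := by simpa using hp
      rw [flip_of_notMem hp', flip_of_notMem hp']
      exact (h4 p f hf).2

end Pool.Agent.H97.Star
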