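import Pool.Agent.H97.Cyc.Defs

/-!
# Star lemma: definitions

Part of `MP_644d19_co` (symmetric ends). `r` is the step relation of a graph on the vertices `V`,
`τ : V → K` the type (the vertex map onto the base graph).

* `Al r τ q β t`: some path from `q` to `t` successively visits vertices of the types `β`.
* `Rl r τ p β g` (the walk `β` realises the permutation `g` of the index set `X` of the family
  `p : X → V`): over `β` the paths from `p x` all end in `p (g x)`, and there is one.
* `Orb r τ p θ`: the `p x` have the same type, for all `x`, `y` some realised permutation maps `x` to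
  `θ y` and `y` to `θ x`, and every vertex of this type reaches some `p y` over a walk that realises a
  permutation. (Example: `X` an abelian group, all translations are realised, `θ x = -x`.)
* `Bl`: balanced functions (the condition `Bal` of `Bun/Defs.lean` for the empty word).
* `Mo γ`: the averaging operator over the type list `γ`.
* `Ax`: the functions on `X` that have a balanced extension with mean `0`, fixed by `Mo Γ`.
-/

set_option autoImplicit false

namespace Pool.Agent.H97.Star

open Pool.Agent.H75.Bunchy Pool.Agent.H26.Bunchy Pool.Agent.H97.Bun Pool.Agent.H97.Cyc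
open scoped Classical

section Rel
variable {V K X : Type*}

/-- some `r`-path from `q` to `t` successively visits vertices of the types `β` (after `q`) -/
def Al (r : V → V → Prop) (τ : V → K) : V → List K → V → Prop
  | q, [], t => q = t
  | q, κ :: β, t => ∃ q', (r q q' ∧ τ q' = κ) ∧ Al r τ q' β t

/-- the walk `β` realises the permutation `g` -/
def Rl (r : V → V → Prop) (τ : V → K) (p : X → V) (β : List K) (g : Equiv.Perm X) : Prop :=
  ∀ x t, Al r τ (p x) β t ↔ t = p (g x)

/-- vertices of the same type have followers of the same types -/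
def RR (r : V → V → Prop) (τ : V → K) : Prop :=
  ∀ q q' q₁, τ q = τ q' → r q q₁ → ∃ q₁', r q' q₁' ∧ τ q₁' = τ q₁

/-- symmetric families of ends -/
structure Orb (r : V → V → Prop) (τ : V → K) (p : X → V) (θ : X → X) : Prop where
  typ : ∀ x y, τ (p x) = τ (p y)
  sym : ∀ x y, ∃ β g, Rl r τ p β g ∧ g x = θ y ∧ g y = θ x
  absorb : ∀ q x, τ q = τ (p x) → ∃ β g y, Rl r τ p β g ∧ Al r τ q β (p y)

end Rel

section Aut
variable {V K E X : Type*} [Fintype V] [Fintype E]

/-- balanced functions: the same mean `c` after all words -/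
def Bl (s t : E → K) (σ : V → K) (a : V → E → V) (μ : V → ℝ) (k : K) (f : V → ℝ) (c : ℝ) : Prop :=
  ∀ (j : K) (v : List E), (∃ p, σ p = j) → Valid s t j v → fin t j v = k →
    mean σ μ j (fun p => f (run a p v)) = c

/-- the averaging operator over a list of types -/
noncomputable def Mo (s t : E → K) (σ : V → K) (a : V → E → V) : List K → Module.End ℝ (V → ℝ)
  | [] => 1
  | κ :: γ => op s σ a {e | t e = κ} * Mo s t σ a γ

end Aut

section Basic
variable {V K E : Type*} [Fintype V] [Fintype E] {s t : E → K} {σ : V → K} {a : V → E → V}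
  {μ : V → ℝ} {k : K}

lemma bl_iff (e1 e2 : E) {f : V → ℝ} {c : ℝ} :
    Bl s t σ a μ k f c ↔ Bal s t σ a μ e1 e2 k [] f c := by
  constructor
  · intro h j v u' hj hv hf hu
    rw [hu.nil_left, List.append_nil]
    exact h j v hj hv hf
  · intro h j v hj hv hf
    have := h j v [] hj hv hf (hyb_refl [])
    simpa using this

omit [Fintype E] in
lemma bl_add {f g : V → ℝ} {c d : ℝ} (h : Bl s t σ a μ k f c) (h' : Bl s t σ a μ k g d) :
    Bl s t σ a μ k (f + g) (c + d) := by
  intro j v hj hv hf
  rw [← h j v hj hv hf, ← h' j v hj hv hf, ← mean_add]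
  rfl

omit [Fintype E] in
lemma bl_smul {f : V → ℝ} {c : ℝ} (r : ℝ) (h : Bl s t σ a μ k f c) :
    Bl s t σ a μ k (r • f) (r * c) := by
  intro j v hj hv hf
  rw [← h j v hj hv hf, ← mean_smul]
  rfl

omit [Fintype E] in
lemma bl_const (hμ : ∀ p, 0 < μ p) (c : ℝ) : Bl s t σ a μ k (fun _ => c) c := by
  intro j v hj _ _
  exact mean_const hμ hj c

omit [Fintype E] in
lemma bl_zero : Bl s t σ a μ k 0 0 := by
  intro j v _ _ _
  have := mean_smul σ μ j 0 (fun _ => (0 : ℝ))
  simpa using this

omit [Fintype E] in
lemma bl_congr (ha : Typed s t σ a) {f g : V → ℝ} {c : ℝ} (hfg : ∀ q, σ q = k → f q = g q)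
    (h : Bl s t σ a μ k f c) : Bl s t σ a μ k g c := by
  intro j v hj hv hf
  rw [← h j v hj hv hf]
  refine mean_congr fun p hp => (hfg _ ?_).symm
  rw [ha.run p v (by rw [hp]; exact hv), hp, hf]

omit [Fintype E] in
/-- words in front -/
lemma bl_run {f : V → ℝ} {c : ℝ} {w : List E} (hw : Valid s t k w)
    (h : Bl s t σ a μ (fin t k w) f c) : Bl s t σ a μ k (fun q => f (run a q w)) c := by
  intro j v hj hv hf
  have h1 := h j (v ++ w) hj ((valid_append _ _ _).2 ⟨hv, by rw [hf]; exact hw⟩)
    (by rw [fin_append, hf])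
  rw [← h1]
  refine mean_congr fun p _ => ?_
  rw [run_append]

end Basic

/-- the functions on `X` with a balanced extension of mean `0` that is fixed by `Mo Γ` -/
noncomputable def Ax {V K E X : Type*} [Fintype V] [Fintype E] (s t : E → K) (σ : V → K)
    (a : V → E → V) (μ : V → ℝ) (k : K) (Γ : List K) (p : X → V) : Submodule ℝ (X → ℝ) where
  carrier := {g | ∃ ψ : V → ℝ, (∀ q, σ q = k → Mo s t σ a Γ ψ q = ψ q) ∧ Bl s t σ a μ k ψ 0 ∧
    ∀ x, ψ (p x) = g x}
  zero_mem' := ⟨0, fun q _ => by simp, bl_zero, fun _ => rfl⟩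
  add_mem' := by
    rintro g h ⟨ψ, h1, h2, h3⟩ ⟨φ, h1', h2', h3'⟩
    refine ⟨ψ + φ, fun q hq => ?_, ?_, fun x => ?_⟩
    · rw [map_add, Pi.add_apply, h1 q hq, h1' q hq, Pi.add_apply]
    · have := bl_add h2 h2'
      rwa [add_zero] at this
    · rw [Pi.add_apply, Pi.add_apply, h3, h3']
  smul_mem' := by
    rintro r g ⟨ψ, h1, h2, h3⟩
    refine ⟨r • ψ, fun q hq => ?_, ?_, fun x => ?_⟩
    · rw [map_smul, Pi.smul_apply, h1 q hq, Pi.smul_apply]
    · have := bl_smul r h2
      rwa [mul_zero] at this
    · rw [Pi.smul_apply, Pi.smul_apply, h3]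

end Pool.Agent.H97.Star
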