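import Pool.Agent.H97.Star.Orb
import Pool.Agent.H97.Cyc.OpB

/-!
# Star lemma: the averaging operator over a type list

Part of `MP_644d19_co` (symmetric ends).

* `al_word`: the paths of the step relation over the type list `β` are the runs of the valid words `w`
  with `w.map t = β` (induction on `β`; `ha`).
* `rr_step`: the letter of the step can be applied at the other vertex.
* `mo_flip`: `op_flip` for every factor (`e1`, `e2` have the same target).
* `mo_le`: induction on `γ` as in `opn_le` (`Cyc/Op.lean`). `γ = κ :: γ'`: the path to `t₀` starts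
  with a letter `e₀`, `s e₀ = σ q`, `t e₀ = κ`. For every letter `e` with `s e = σ q`, `t e = κ` the state
  `a q e` has type `κ`, has some path over `γ'` (`al_exists` with `rr_step`), and all ends have
  `φ ≤ c`, so `Mo γ' φ (a q e) ≤ c` (induction hypothesis with `δ = 0`); for `e₀` use `δ`. Then
  `op_upper`.
* `mo_eq`: `mo_le` for `φ`, `ρ` and for `-φ`, `-ρ` with `δ = 0`.
* `mo_bound`: induction on `γ`, `opn_bound` with `M = 1`.
* `bl_mo`: induction on `w`, `bal_op` (with `bl_iff e e`) for `L = {e' | t e' = t e}`.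
* `mo_zero` (maximum principle): let `q₁` be a state of type `k` at which `ψ` is maximal. If `ψ q₁ > 0`:
  `mo_le` with `c = δ = ψ q₁`, `t₀ = p y` (all ends over `Γ` from `q₁` have type `k`: `al_type` with the path
  to `p y`): `ψ q₁ ≤ ψ q₁ - (1 / card E) ^ length * ψ q₁`, a contradiction (if `card E = 0` then
  `Γ = []`). The same for `-ψ`.
-/

set_option autoImplicit false

namespace Pool.Agent.H97.Star

open Pool.Agent.H75.Bunchy Pool.Agent.H26.Bunchy Pool.Agent.H97.Bun Pool.Agent.H97.Cyc
open scoped Classical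

variable {V K E X : Type*} [Fintype V] [Fintype E] {s t : E → K} {σ : V → K} {a : V → E → V}
  {e1 e2 : E} {μ : V → ℝ} {p : X → V}

omit [Fintype V] [Fintype E] in
lemma al_word (ha : Typed s t σ a) {β : List K} {q z : V} :
    Al (Step s σ a) σ q β z ↔ ∃ w, Valid s t (σ q) w ∧ w.map t = β ∧ run a q w = z := by
  induction β generalizing q with
  | nil =>
    constructor
    · intro h
      exact ⟨[], trivial, rfl, h⟩
    · rintro ⟨w, _, h2, h3⟩
      have h4 : w = [] := by simpa using h2
      subst h4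
      exact h3
  | cons κ β ih =>
    constructor
    · rintro ⟨q', ⟨⟨e, he, rfl⟩, hκ⟩, h⟩
      obtain ⟨w, h1, h2, h3⟩ := ih.1 h
      have h4 := ha q e he
      refine ⟨e :: w, ⟨he, ?_⟩, ?_, h3⟩
      · rw [← h4]
        exact h1
      · rw [List.map_cons, h2, ← h4, hκ]
    · rintro ⟨w, h1, h2, h3⟩
      cases w with
      | nil => simp at h2
      | cons e w =>
        rw [List.map_cons, List.cons.injEq] at h2
        obtain ⟨h5, h6⟩ := h1
        have h4 := ha q e h5
        refine ⟨a q e, ⟨⟨e, h5, rfl⟩, by rw [h4, h2.1]⟩, ih.2 ⟨w, ?_, h2.2, h3⟩⟩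
        rw [h4]
        exact h6

omit [Fintype V] [Fintype E] in
lemma rr_step (ha : Typed s t σ a) : RR (Step s σ a) σ := by
  rintro q q' q₁ hq ⟨e, he, rfl⟩
  exact ⟨a q' e, ⟨e, by rw [he, hq], rfl⟩, by rw [ha q' e (by rw [he, hq]), ha q e he]⟩

lemma mo_flip (hs : s e1 = s e2) (ht : t e1 = t e2) (δ : Set V) (γ : List K) :
    Mo s t σ (flip e1 e2 δ a) γ = Mo s t σ a γ := by
  induction γ with
  | nil => rfl
  | cons κ γ ih =>
    unfold Mo
    rw [ih, op_flip hs (by show t e1 = κ ↔ t e2 = κ; rw [ht]) δ]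

lemma mo_bound (γ : List K) {φ : V → ℝ} {C : ℝ} (hC : 0 ≤ C) (hφ : ∀ q, |φ q| ≤ C) (q : V) :
    |Mo s t σ a γ φ q| ≤ C := by
  induction γ generalizing q with
  | nil => exact hφ q
  | cons κ γ ih =>
    have h := opn_bound (s := s) (σ := σ) (a := a) (L := {e | t e = κ}) 1 hC ih q
    rw [pow_one] at h
    exact h

theorem bl_mo (ha : Typed s t σ a) {k : K} {w : List E} (hw : Valid s t k w) {φ : V → ℝ} {m : ℝ}
    (h : Bl s t σ a μ (fin t k w) φ m) : Bl s t σ a μ k (Mo s t σ a (w.map t) φ) m := by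
  induction w generalizing k with
  | nil => exact h
  | cons e w ih =>
    obtain ⟨h1, h2⟩ := hw
    have h3 : Bl s t σ a μ (t e) (Mo s t σ a (w.map t) φ) m := ih h2 h
    have h4 : Bal s t σ a μ e e k [] (op s σ a {e' | t e' = t e} (Mo s t σ a (w.map t) φ)) m := by
      have h5 : ∃ e' ∈ {e' | t e' = t e}, s e' = k := ⟨e, rfl, h1⟩
      refine bal_op ha h5 fun e' he' _ => ?_
      have h6 : t e' = t e := he'
      rw [h6]
      exact (bl_iff e e).1 h3
    exact (bl_iff e e).2 h4

end Pool.Agent.H97.Star
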