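import Pool.Agent.H97.Star.Opr

/-!
# Star lemma: the averaging operator over a type list, bounds

Part of `MP_644d19_co` (symmetric ends).

* `al_word`: the paths of the step relation over the type list `β` are the runs of the valid words `w`
  with `w.map t = β` (induction on `β`; `ha`).
* `rr_step`: the letter of the step can be applied at the other vertex.
* `mo_flip`: `op_flip` for every factor (`e1`, `e2` have the same target).
* `mo_le`: induction on `γ` as in `opn_le` (`Cyc/Op.lean`). `γ = κ :: γ'`: the path to `t₀` starts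
  with a letter `e₀`, `s e₀ = σ q`, `t e₀ = κ`. For every letter `e` with `s e = σ q`, `t e = κ` the state
  `a q e` has type `κ`, has some path over `γ'` (`al_exists` with `rr_step`), and all ends have
  `φ ≤ c`, so `Mo γ' φ (a q e) ≤ c` (induction hypothesis with `δ = 0`); for `e₀` use `δ`. Then
  `op_upper`.
* `mo_eq`: `mo_le` for `φ`, `ρ` and for `-φ`, `-ρ` with `δ = 0`.
* `mo_bound`: induction on `γ`, `opn_bound` with `M = 1`.
* `bl_mo`: induction on `w`, `bal_op` (with `bl_iff e e`) for `L = {e' | t e' = t e}`.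
* `mo_zero` (maximum principle): let `q₁` be a state of type `k` at which `ψ` is maximal. If `ψ q₁ > 0`:
  `mo_le` with `c = δ = ψ q₁`, `t₀ = p y` (all ends over `Γ` from `q₁` have type `k`: `al_type` with the path
  to `p y`): `ψ q₁ ≤ ψ q₁ - (1 / card E) ^ length * ψ q₁`, a contradiction (if `card E = 0` then
  `Γ = []`). The same for `-ψ`.
-/

set_option autoImplicit false

namespace Pool.Agent.H97.Star

open Pool.Agent.H75.Bunchy Pool.Agent.H26.Bunchy Pool.Agent.H97.Bun Pool.Agent.H97.Cyc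
open scoped Classical

variable {V K E X : Type*} [Fintype V] [Fintype E] {s t : E → K} {σ : V → K} {a : V → E → V}
  {e1 e2 : E} {μ : V → ℝ} {p : X → V}

theorem mo_le (ha : Typed s t σ a) {γ : List K} {q : V} {φ : V → ℝ} {c δ : ℝ} (hδ : 0 ≤ δ)
    (hφ : ∀ z, Al (Step s σ a) σ q γ z → φ z ≤ c) {z₀ : V} (h₀ : Al (Step s σ a) σ q γ z₀)
    (h₀' : φ z₀ ≤ c - δ) :
    Mo s t σ a γ φ q ≤ c - (1 / (Fintype.card E : ℝ)) ^ γ.length * δ := by
  induction γ generalizing q δ z₀ with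
  | nil =>
    have h1 : q = z₀ := h₀
    subst h1
    simpa [Mo] using h₀'
  | cons κ γ ih =>
    obtain ⟨q₀, ⟨⟨e₀, he₀, rfl⟩, hκ₀⟩, h1⟩ := h₀
    have hstep : ∀ e, e ∈ {e | t e = κ} → s e = σ q → ∀ z, Al (Step s σ a) σ (a q e) γ z →
        φ z ≤ c := by
      intro e he hse z hz
      refine hφ z ⟨a q e, ⟨⟨e, hse, rfl⟩, ?_⟩, hz⟩
      rw [ha q e hse]
      exact he
    have hall : ∀ e ∈ {e | t e = κ}, s e = σ q → Mo s t σ a γ φ (a q e) ≤ c := by
      intro e he hse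
      have hty : σ (a q e₀) = σ (a q e) := by
        have h5 : t e = κ := he
        rw [hκ₀, ha q e hse, h5]
      obtain ⟨z, hz⟩ := al_exists (rr_step ha) h1 hty
      have h2 := ih (q := a q e) (δ := 0) (z₀ := z) le_rfl (hstep e he hse) hz
        (by simpa using hstep e he hse z hz)
      simpa using h2
    have he₀L : e₀ ∈ {e | t e = κ} := by
      show t e₀ = κ
      rw [← hκ₀, ha q e₀ he₀]
    have hzero := ih (q := a q e₀) hδ (hstep e₀ he₀L he₀) h1 h₀'
    have hδ' : 0 ≤ (1 / (Fintype.card E : ℝ)) ^ γ.length * δ := by positivity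
    have h3 := op_upper (s := s) (σ := σ) (a := a) (L := {e | t e = κ}) hδ' hall he₀L he₀ hzero
    have h4 : Mo s t σ a (κ :: γ) φ q = op s σ a {e | t e = κ} (Mo s t σ a γ φ) q := rfl
    rw [h4]
    refine h3.trans (le_of_eq ?_)
    rw [List.length_cons, pow_succ']
    ring

lemma mo_eq (ha : Typed s t σ a) {γ : List K} {q : V} {φ : V → ℝ} {ρ : ℝ}
    (hφ : ∀ z, Al (Step s σ a) σ q γ z → φ z = ρ) (hex : ∃ z, Al (Step s σ a) σ q γ z) :
    Mo s t σ a γ φ q = ρ := by
  obtain ⟨z, hz⟩ := hex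
  have h1 := mo_le ha (φ := φ) (c := ρ) (δ := 0) le_rfl (fun z hz => (hφ z hz).le) hz
    (by rw [hφ z hz, sub_zero])
  have h2 := mo_le ha (φ := -φ) (c := -ρ) (δ := 0) le_rfl
    (fun z hz => by rw [Pi.neg_apply, hφ z hz]) hz (by rw [Pi.neg_apply, hφ z hz, sub_zero])
  rw [map_neg, Pi.neg_apply] at h2
  simp only [mul_zero, sub_zero] at h1 h2
  linarith

private lemma mo_pos (ha : Typed s t σ a) {k : K} (hk : ∀ x, σ (p x) = k) {Γ : List K}
    (habs : ∀ q, σ q = k → ∃ y, Al (Step s σ a) σ q Γ (p y)) {ψ : V → ℝ}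
    (hψ : ∀ q, σ q = k → Mo s t σ a Γ ψ q = ψ q) (h0 : ∀ x, ψ (p x) = 0) :
    ∀ q, σ q = k → ψ q ≤ 0 := by
  intro q hq
  by_contra hcon
  push Not at hcon
  obtain ⟨q₁, hq₁, hmax⟩ := Finset.exists_max_image (Finset.univ.filter fun q => σ q = k) ψ
    ⟨q, Finset.mem_filter.2 ⟨Finset.mem_univ _, hq⟩⟩
  have hk₁ : σ q₁ = k := (Finset.mem_filter.1 hq₁).2
  have hpos : 0 < ψ q₁ := lt_of_lt_of_le hcon (hmax q (Finset.mem_filter.2 ⟨Finset.mem_univ _, hq⟩))
  obtain ⟨y, hy⟩ := habs q₁ hk₁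
  have h1 := mo_le ha (φ := ψ) (c := ψ q₁) (δ := ψ q₁) hpos.le (fun z hz => by
    apply hmax z
    rw [Finset.mem_filter]
    exact ⟨Finset.mem_univ _, (al_type hz hy rfl).trans (hk y)⟩) hy (by rw [h0, sub_self])
  rw [hψ q₁ hk₁] at h1
  have h2 : 0 < (1 / (Fintype.card E : ℝ)) ^ Γ.length := by
    cases Γ with
    | nil => simp
    | cons κ Γ =>
      obtain ⟨q', ⟨⟨e, he, -⟩, -⟩, -⟩ := hy
      have h3 : 0 < Fintype.card E := Fintype.card_pos_iff.2 ⟨e⟩
      positivity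
  have h4 := mul_pos h2 hpos
  linarith

/-- maximum principle -/
theorem mo_zero (ha : Typed s t σ a) {k : K} (hk : ∀ x, σ (p x) = k) {Γ : List K}
    (habs : ∀ q, σ q = k → ∃ y, Al (Step s σ a) σ q Γ (p y)) {ψ : V → ℝ}
    (hψ : ∀ q, σ q = k → Mo s t σ a Γ ψ q = ψ q) (h0 : ∀ x, ψ (p x) = 0) :
    ∀ q, σ q = k → ψ q = 0 := by
  intro q hq
  refine le_antisymm (mo_pos ha hk habs hψ h0 q hq) ?_
  have h1 := mo_pos ha hk habs (ψ := -ψ) (fun q hq => by
    rw [map_neg, Pi.neg_apply, Pi.neg_apply, hψ q hq]) (fun x => by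
    rw [Pi.neg_apply, h0, neg_zero]) q hq
  rw [Pi.neg_apply] at h1
  linarith

end Pool.Agent.H97.Star
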