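import Pool.Agent.H97.Star.Defs

/-!
# Star lemma: walks that realise permutations

Part of `MP_644d19_co` (symmetric ends).

* `al_append`, `al_type`, `al_exists`: induction on the list.
* `rl_append`: the paths from `p x` over `β ++ γ` pass at the end of `β` through `p (g x)` only.
* `rl_pow`, `rl_inv`: `g⁻¹ = g ^ (orderOf g - 1)` (`X` finite).
* `Orb.inj`: if `θ y = θ y'`, take `g` with `g y' = θ y`, `g y = θ y'` (`sym` for the pair `y', y`):
  `g y = g y'`. So `θ` is surjective (`Finite.injective_iff_surjective`), and `Orb.trans` follows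
  from `sym`.
* `Orb.exists_abs`: first, by induction on the finite set `Q` of vertices of the type `k = τ (p x₀)`:
  there are `Γ`, `g` with `Rl Γ g` and `∃ y, Al q Γ (p y)` for all `q ∈ Q`. For `insert q₀ Q`: from `q₀`
  there is a path over `Γ` to some `q₁` (`al_exists`, since there is one from `p x₀`), of type
  `τ (p (g x₀)) = k` (`al_type`, `typ`); let `β, h, y` be given by `absorb q₁ x₀`. Take `Γ ++ β`,
  `h * g`: for `q ∈ Q`, `Al q Γ (p y)` and `Al (p y) β (p (h y))`. Then for `Q = univ` (filter of the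
  type `k`) append a walk that realises `g⁻¹` (`rl_inv`).
-/

set_option autoImplicit false

namespace Pool.Agent.H97.Star

variable {V K X : Type*} {r : V → V → Prop} {τ : V → K} {p : X → V} {θ : X → X}

lemma al_append (β γ : List K) (q t : V) :
    Al r τ q (β ++ γ) t ↔ ∃ m, Al r τ q β m ∧ Al r τ m γ t := by
  induction β generalizing q with
  | nil =>
    constructor
    · intro h
      exact ⟨q, rfl, h⟩
    · rintro ⟨m, hm, h⟩
      have hm' : q = m := hm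
      subst hm'
      exact h
  | cons κ β ih =>
    constructor
    · rintro ⟨q', h1, h2⟩
      obtain ⟨m, h3, h4⟩ := (ih q').1 h2
      exact ⟨m, ⟨q', h1, h3⟩, h4⟩
    · rintro ⟨m, ⟨q', h1, h3⟩, h4⟩
      exact ⟨q', h1, (ih q').2 ⟨m, h3, h4⟩⟩

lemma al_type {β : List K} {q q' t t' : V} (h : Al r τ q β t) (h' : Al r τ q' β t')
    (hq : τ q = τ q') : τ t = τ t' := by
  induction β generalizing q q' with
  | nil =>
    have h1 : q = t := h
    have h2 : q' = t' := h'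
    rw [← h1, ← h2, hq]
  | cons κ β ih =>
    obtain ⟨q₁, h1, h2⟩ := h
    obtain ⟨q₁', h1', h2'⟩ := h'
    exact ih h2 h2' (h1.2.trans h1'.2.symm)

lemma al_exists (hr : RR r τ) {β : List K} {q q' t : V} (h : Al r τ q β t) (hq : τ q = τ q') :
    ∃ t', Al r τ q' β t' := by
  induction β generalizing q q' with
  | nil => exact ⟨q', rfl⟩
  | cons κ β ih =>
    obtain ⟨q₁, h1, h2⟩ := h
    obtain ⟨q₁', h3, h4⟩ := hr q q' q₁ hq h1.1
    obtain ⟨t', ht'⟩ := ih h2 h4.symm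
    exact ⟨t', q₁', ⟨h3, h4.trans h1.2⟩, ht'⟩

lemma rl_nil : Rl r τ p [] 1 := by
  intro x t
  exact eq_comm

lemma rl_append {β γ : List K} {g h : Equiv.Perm X} (hg : Rl r τ p β g) (hh : Rl r τ p γ h) :
    Rl r τ p (β ++ γ) (h * g) := by
  intro x t
  rw [al_append]
  constructor
  · rintro ⟨m, h1, h2⟩
    rw [hg] at h1
    rw [h1, hh] at h2
    exact h2
  · intro ht
    exact ⟨p (g x), (hg x _).2 rfl, (hh (g x) t).2 ht⟩

lemma rl_pow {β : List K} {g : Equiv.Perm X} (hg : Rl r τ p β g) (n : ℕ) :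
    ∃ γ, Rl r τ p γ (g ^ n) := by
  induction n with
  | zero => exact ⟨[], by rw [pow_zero]; exact rl_nil⟩
  | succ n ih =>
    obtain ⟨γ, hγ⟩ := ih
    exact ⟨γ ++ β, by rw [pow_succ']; exact rl_append hγ hg⟩

lemma rl_inv [Finite X] {β : List K} {g : Equiv.Perm X} (hg : Rl r τ p β g) :
    ∃ γ, Rl r τ p γ g⁻¹ := by
  obtain ⟨γ, hγ⟩ := rl_pow hg (orderOf g - 1)
  have h1 : g ^ (orderOf g - 1) = g⁻¹ := by
    apply eq_inv_of_mul_eq_one_left
    rw [← pow_succ, Nat.sub_add_cancel (orderOf_pos g), pow_orderOf_eq_one]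
  rw [h1] at hγ
  exact ⟨γ, hγ⟩

lemma Orb.inj (hO : Orb r τ p θ) : Function.Injective θ := by
  intro y y' h
  obtain ⟨β, g, -, h1, h2⟩ := hO.sym y' y
  apply g.injective
  rw [h1, h2, h]

lemma Orb.trans [Finite X] (hO : Orb r τ p θ) (x y : X) : ∃ β g, Rl r τ p β g ∧ g x = y := by
  obtain ⟨y₀, rfl⟩ := (Finite.injective_iff_surjective.1 hO.inj) y
  obtain ⟨β, g, h, h1, -⟩ := hO.sym x y₀
  exact ⟨β, g, h, h1⟩

private lemma abs_aux (hr : RR r τ) (hO : Orb r τ p θ) (x₀ : X) [DecidableEq V] (Q : Finset V) :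
    (∀ q ∈ Q, τ q = τ (p x₀)) → ∃ Γ g, Rl r τ p Γ g ∧ ∀ q ∈ Q, ∃ y, Al r τ q Γ (p y) := by
  induction Q using Finset.induction_on with
  | empty =>
    intro _
    exact ⟨[], 1, rl_nil, fun q hq => absurd hq (Finset.notMem_empty q)⟩
  | insert q₀ Q _ ih =>
    intro hQ
    obtain ⟨Γ, g, hg, hΓ⟩ := ih fun q hq => hQ q (Finset.mem_insert_of_mem hq)
    have h0 : Al r τ (p x₀) Γ (p (g x₀)) := (hg x₀ _).2 rfl
    have hq₀ : τ q₀ = τ (p x₀) := hQ q₀ (Finset.mem_insert_self _ _)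
    obtain ⟨q₁, h1⟩ := al_exists hr h0 hq₀.symm
    have h2 : τ q₁ = τ (p x₀) := (al_type h1 h0 hq₀).trans (hO.typ _ _)
    obtain ⟨β, h, y, h3, h4⟩ := hO.absorb q₁ x₀ h2
    refine ⟨Γ ++ β, h * g, rl_append hg h3, fun q hq => ?_⟩
    rcases Finset.mem_insert.1 hq with rfl | hq
    · exact ⟨y, (al_append _ _ _ _).2 ⟨q₁, h1, h4⟩⟩
    · obtain ⟨y', h5⟩ := hΓ q hq
      exact ⟨h y', (al_append _ _ _ _).2 ⟨p y', h5, (h3 y' _).2 rfl⟩⟩

/-- an absorbing walk that realises the identity -/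
theorem Orb.exists_abs [Finite V] [Finite X] (hr : RR r τ) (hO : Orb r τ p θ) (x₀ : X) :
    ∃ Γ, Rl r τ p Γ 1 ∧ ∀ q, τ q = τ (p x₀) → ∃ y, Al r τ q Γ (p y) := by
  classical
  have : Fintype V := Fintype.ofFinite V
  obtain ⟨Γ, g, hg, hΓ⟩ := abs_aux hr hO x₀ (Finset.univ.filter fun q => τ q = τ (p x₀))
    fun q hq => (Finset.mem_filter.1 hq).2
  obtain ⟨γ, hγ⟩ := rl_inv hg
  refine ⟨Γ ++ γ, ?_, fun q hq => ?_⟩
  · have h1 := rl_append hg hγ
    rwa [inv_mul_cancel] at h1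
  · obtain ⟨y, hy⟩ := hΓ q (Finset.mem_filter.2 ⟨Finset.mem_univ q, hq⟩)
    exact ⟨g⁻¹ y, (al_append _ _ _ _).2 ⟨p y, hy, (hγ y _).2 rfl⟩⟩

end Pool.Agent.H97.Star
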