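import Mathlib

/-!
# Star lemma: invariant subspaces with intersection zero are orthogonal

Part of `MP_644d19_co` (symmetric ends). `S` is a finite set of permutations of `X`, closed under
products, such that for all `x`, `y` some `g ∈ S` maps `x` to `θ y` and `y` to `θ x`.

`orth`. For `u : X → ℝ` let `P_u x y = ∑ g ∈ S, u (g x) * u (g y)`.
(a) `P_u` is symmetric, and `P_u (h x) (h y) = P_u x y` for `h ∈ S` (`g ↦ g * h` maps `S` to itself, is
injective, so bijective: `Finset.sum_bij` or `Finset.sum_nbij'` with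
`Finset.surj_on_of_inj_on_of_card_le`). Hence `P_u (θ x) (θ y) = P_u y x = P_u x y` (`g x = θ y`,
`g y = θ x`).
(b) `θ` is injective, so a bijection (`g y = θ x`, `g x = θ y`: if `θ x = θ y` then `g x = g y`).
(c) `T x y = ∑ z, P_u x z * P_w z y` is invariant under `h ∈ S` too (substitute `z ↦ h z`), so
`T x y = T (θ y) (θ x) = ∑ z, P_u (θ y) (θ z) * P_w (θ z) (θ x) = ∑ z, P_u y z * P_w z x = ∑ z, P_w x z * P_u z y`.
(d) for fixed `y`, `x ↦ T x y = ∑ z, ∑ g, u (g x) * (u (g z) * P_w z y)` lies in `U` and (by (c)) in `W`.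
So `T = 0`.
(e) `0 = ∑ x, T x x = ∑ g ∈ S, ∑ h ∈ S, (∑ x, u (g x) * w (h x)) ^ 2`; so the term `g = h = 1` is `0`.

`star_count`: the `c j` are linearly independent: if `∑ j, r j • c j = 0` (`Fintype.linearIndependent_iff`),
multiply at `i` with `w i * c j₀ i` and sum over `i`: `r j₀ * ∑ i, w i * c j₀ i ^ 2 = 0`, and this sum is
positive. So `card (Option F) ≤ finrank (F → ℝ) = card F`
(`LinearIndependent.fintype_card_le_finrank`), a contradiction.
-/

set_option autoImplicit false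

namespace Pool.Agent.H97.Star

open scoped Classical

/-- right translation permutes `S` -/
private lemma sum_mulR {X : Type*} [Fintype X] {S : Finset (Equiv.Perm X)}
    (hmul : ∀ g ∈ S, ∀ h ∈ S, g * h ∈ S) {h : Equiv.Perm X} (hh : h ∈ S) (F : Equiv.Perm X → ℝ) :
    ∑ g ∈ S, F (g * h) = ∑ g ∈ S, F g := by
  have hinj : Function.Injective fun g : Equiv.Perm X => g * h := mul_left_injective h
  have himg : S.image (fun g => g * h) = S := by
    apply Finset.eq_of_subset_of_card_le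
    · intro g hg
      obtain ⟨g', hg', rfl⟩ := Finset.mem_image.1 hg
      exact hmul g' hg' h hh
    · rw [Finset.card_image_of_injective _ hinj]
  calc ∑ g ∈ S, F (g * h) = ∑ g ∈ S.image (fun g => g * h), F g := by
        rw [Finset.sum_image fun a _ b _ hab => hinj hab]
    _ = ∑ g ∈ S, F g := by rw [himg]

/-- the kernel of a vector -/
private noncomputable def Pk {X : Type*} (S : Finset (Equiv.Perm X)) (u : X → ℝ) (x y : X) : ℝ :=
  ∑ g ∈ S, u (g x) * u (g y)

private lemma Pk_symm {X : Type*} (S : Finset (Equiv.Perm X)) (u : X → ℝ) (x y : X) :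
    Pk S u x y = Pk S u y x := by
  unfold Pk
  exact Finset.sum_congr rfl fun g _ => mul_comm _ _

private lemma Pk_inv {X : Type*} [Fintype X] {S : Finset (Equiv.Perm X)}
    (hmul : ∀ g ∈ S, ∀ h ∈ S, g * h ∈ S) {h : Equiv.Perm X} (hh : h ∈ S) (u : X → ℝ) (x y : X) :
    Pk S u (h x) (h y) = Pk S u x y := by
  unfold Pk
  exact sum_mulR hmul hh (fun g => u (g x) * u (g y))

private lemma Pk_th {X : Type*} [Fintype X] {S : Finset (Equiv.Perm X)}
    (hmul : ∀ g ∈ S, ∀ h ∈ S, g * h ∈ S) {θ : X → X}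
    (hθ : ∀ x y, ∃ g ∈ S, g x = θ y ∧ g y = θ x) (u : X → ℝ) (x y : X) :
    Pk S u (θ x) (θ y) = Pk S u x y := by
  obtain ⟨g, hg, h1, h2⟩ := hθ x y
  rw [← h1, ← h2, Pk_inv hmul hg, Pk_symm]

theorem orth {X : Type*} [Fintype X] (S : Finset (Equiv.Perm X)) (h1 : 1 ∈ S)
    (hmul : ∀ g ∈ S, ∀ h ∈ S, g * h ∈ S) (θ : X → X)
    (hθ : ∀ x y, ∃ g ∈ S, g x = θ y ∧ g y = θ x) (U W : Submodule ℝ (X → ℝ))
    (hU : ∀ g ∈ S, ∀ u ∈ U, (fun x => u (g x)) ∈ U)
    (hW : ∀ g ∈ S, ∀ w ∈ W, (fun x => w (g x)) ∈ W) (hUW : ∀ u ∈ U, u ∈ W → u = 0)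
    {u w : X → ℝ} (hu : u ∈ U) (hw : w ∈ W) : ∑ x, u x * w x = 0 := by
  have hinj : Function.Injective θ := by
    intro x y hxy
    obtain ⟨g, -, e1, e2⟩ := hθ x y
    apply g.injective
    rw [e1, e2, hxy]
  have hbij : Function.Bijective θ := Finite.injective_iff_bijective.1 hinj
  -- the product kernel
  have hTinv : ∀ h ∈ S, ∀ x y, ∑ z, Pk S u (h x) z * Pk S w z (h y) =
      ∑ z, Pk S u x z * Pk S w z y := by
    intro h hh x y
    rw [← Equiv.sum_comp h (fun z => Pk S u (h x) z * Pk S w z (h y))]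
    refine Finset.sum_congr rfl fun z _ => ?_
    rw [Pk_inv hmul hh, Pk_inv hmul hh]
  have hTsw : ∀ x y, ∑ z, Pk S u x z * Pk S w z y = ∑ z, Pk S w x z * Pk S u z y := by
    intro x y
    obtain ⟨g, hg, e1, e2⟩ := hθ x y
    calc ∑ z, Pk S u x z * Pk S w z y = ∑ z, Pk S u (g x) z * Pk S w z (g y) := (hTinv g hg x y).symm
      _ = ∑ z, Pk S u (θ y) z * Pk S w z (θ x) := by rw [e1, e2]
      _ = ∑ z, Pk S u (θ y) (θ z) * Pk S w (θ z) (θ x) :=
          (hbij.sum_comp fun z => Pk S u (θ y) z * Pk S w z (θ x)).symm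
      _ = ∑ z, Pk S w x z * Pk S u z y := by
          refine Finset.sum_congr rfl fun z _ => ?_
          rw [Pk_th hmul hθ, Pk_th hmul hθ, Pk_symm S u y z, Pk_symm S w z x]
          ring
  have hmem : ∀ (V : Submodule ℝ (X → ℝ)), (∀ g ∈ S, ∀ v ∈ V, (fun x => v (g x)) ∈ V) →
      ∀ v ∈ V, ∀ q : X → ℝ, (fun x => ∑ z, Pk S v x z * q z) ∈ V := by
    intro V hV v hv q
    have e : (fun x => ∑ z, Pk S v x z * q z) =
        ∑ g ∈ S, (∑ z, v (g z) * q z) • (fun x => v (g x)) := by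
      funext x
      rw [Finset.sum_apply]
      simp only [Pi.smul_apply, smul_eq_mul]
      unfold Pk
      have e2 : ∀ z, (∑ g ∈ S, v (g x) * v (g z)) * q z = ∑ g ∈ S, v (g z) * q z * v (g x) := by
        intro z
        rw [Finset.sum_mul]
        exact Finset.sum_congr rfl fun g _ => by ring
      simp only [e2]
      rw [Finset.sum_comm]
      refine Finset.sum_congr rfl fun g _ => ?_
      rw [Finset.sum_mul]
    rw [e]
    exact V.sum_mem fun g hg => V.smul_mem _ (hV g hg v hv)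
  have hT0 : ∀ x y, ∑ z, Pk S u x z * Pk S w z y = 0 := by
    intro x y
    have m1 : (fun x => ∑ z, Pk S u x z * Pk S w z y) ∈ U := hmem U hU u hu (fun z => Pk S w z y)
    have m2 : (fun x => ∑ z, Pk S u x z * Pk S w z y) ∈ W := by
      have e : (fun x => ∑ z, Pk S u x z * Pk S w z y) = fun x => ∑ z, Pk S w x z * Pk S u z y :=
        funext fun x => hTsw x y
      rw [e]
      exact hmem W hW w hw (fun z => Pk S u z y)
    exact congrFun (hUW _ m1 m2) x
  have hsum : ∑ g ∈ S, ∑ h ∈ S, (∑ x, u (g x) * w (h x)) ^ 2 = 0 := by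
    have e : ∑ x, ∑ z, Pk S u x z * Pk S w z x = ∑ g ∈ S, ∑ h ∈ S, (∑ x, u (g x) * w (h x)) ^ 2 := by
      have e1 : ∀ x z, Pk S u x z * Pk S w z x =
          ∑ g ∈ S, ∑ h ∈ S, (u (g x) * w (h x)) * (u (g z) * w (h z)) := by
        intro x z
        unfold Pk
        rw [Finset.sum_mul_sum]
        refine Finset.sum_congr rfl fun g _ => Finset.sum_congr rfl fun h _ => ?_
        ring
      have e2 : ∀ g h : Equiv.Perm X, (∑ x, u (g x) * w (h x)) ^ 2 =
          ∑ x, ∑ z, (u (g x) * w (h x)) * (u (g z) * w (h z)) := by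
        intro g h
        rw [pow_two, Finset.sum_mul_sum]
      simp only [e1, e2]
      calc ∑ x, ∑ z, ∑ g ∈ S, ∑ h ∈ S, (u (g x) * w (h x)) * (u (g z) * w (h z)) =
          ∑ x, ∑ g ∈ S, ∑ z, ∑ h ∈ S, (u (g x) * w (h x)) * (u (g z) * w (h z)) :=
            Finset.sum_congr rfl fun x _ => Finset.sum_comm
        _ = ∑ g ∈ S, ∑ x, ∑ z, ∑ h ∈ S, (u (g x) * w (h x)) * (u (g z) * w (h z)) := Finset.sum_comm
        _ = ∑ g ∈ S, ∑ x, ∑ h ∈ S, ∑ z, (u (g x) * w (h x)) * (u (g z) * w (h z)) :=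
            Finset.sum_congr rfl fun g _ => Finset.sum_congr rfl fun x _ => Finset.sum_comm
        _ = ∑ g ∈ S, ∑ h ∈ S, ∑ x, ∑ z, (u (g x) * w (h x)) * (u (g z) * w (h z)) :=
            Finset.sum_congr rfl fun g _ => Finset.sum_comm
    rw [← e]
    exact Finset.sum_eq_zero fun x _ => hT0 x x
  have h2 : ∑ h ∈ S, (∑ x, u ((1 : Equiv.Perm X) x) * w (h x)) ^ 2 = 0 :=
    (Finset.sum_eq_zero_iff_of_nonneg fun g _ => Finset.sum_nonneg fun h _ => sq_nonneg _).1 hsum 1 h1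
  have h3 : (∑ x, u ((1 : Equiv.Perm X) x) * w ((1 : Equiv.Perm X) x)) ^ 2 = 0 :=
    (Finset.sum_eq_zero_iff_of_nonneg fun h _ => sq_nonneg _).1 h2 1 h1
  have h4 := pow_eq_zero_iff (two_ne_zero) |>.1 h3
  simpa using h4

end Pool.Agent.H97.Star
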