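import Pool.Agent.H97.Star.AnB
import Pool.Agent.H97.Star.Orth

/-!
# Star lemma: the total case

Part of `MP_644d19_co` (symmetric ends).

Let `w, e1, e2, x` be given by `exists_min`, `ζ y = run a (p y) w` (the same for all exchanges of `e1`, `e2`),
`F = {i | Flx s t σ a e1 e2 i ∧ ∃ y, ζ y = i}` (a nonempty finite type), `n i = card {y | ζ y = i} > 0`.
Let `S = {g | ∃ β, Rl (Step s σ a) σ p β g}` (closed under products, `rl_append`, contains `1`). For
`J = a` and `J = flip e1 e2 {i} a` (`i ∈ F`): `J` is typed, strongly connected, has no stable pair, `μ` is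
stationary (`stat_flip`), `Abs` holds (`Abs.flip`), `Rl` is the same relation (`step_flip`), and `Ax J` is
invariant under `S` (`ax_perm`).

* `perp`: if `Ax J` and `Ax J'` intersect in zero, they are orthogonal (`orth`). `ax_inf`: `Ax a`, `Ax (flip i)`
  intersect in zero. Constants: `W = span {1}` is invariant, `U ∩ W = 0` by `ax_const`; so `∑ x, u x = 0` for
  `u ∈ Ax J` (`orth`).
* `star_two`: for `i ≠ j` in `F`, `Ax (flip i) ∩ Ax (flip j) = 0`. Let `u` be in both, with `ψ`, `ψ'`; `Mo` is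
  the same, so `ψ = ψ'` on type `k` (`mo_zero`), and `ψ` is balanced with mean `0` for both. `two_flips`:
  either `ψ` is constant on type `k`, then it is `0` there (mean `0`), so `u = 0`; or there are `f`, `f'`. Put
  `κ_i = f i - f' i`, `κ_j = f j - f' j`, `u' y = f (ζ y)`, `u'' y = f' (ζ y)`: by `pull` (for `flip i`, `flip j`)
  in `Ax (flip i)`, `Ax (flip j)`, and `u' y - u'' y = κ_i [ζ y = i] + κ_j [ζ y = j]`. Sum over `y`:
  `κ_i n_i + κ_j n_j = 0`. By `bl_sep` some `h` is balanced for `a` at the type of `i` with `h i ≠ h j`;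
  `v y = h (ζ y) - c ∈ Ax a` (`pull`) is orthogonal to `u'` and `u''`:
  `κ_i n_i (h i - c) + κ_j n_j (h j - c) = 0`. So `κ_i n_i (h i - h j) = 0`, `κ_i = 0`, then `κ_j = 0`:
  contradiction.
* `star_total`: for `J` as above let `h_J` be balanced at the type `t e1` with `h_J (J i₀ e1) ≠ h_J (J i₀ e2)`
  (`bl_sep`; `i₀ = ζ x`), `c_J i = h_J (J i e1) - h_J (J i e2)` (a function of the state `i`). `q ↦ c_J q` is balanced at
  the type `s e1` with mean `0` (`bl_run` for `[e1]` and `[e2]`, difference). So `y ↦ c_J (ζ y) ∈ Ax J` (`pull`).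
  `c_J i = 0` if `i` has type `s e1` and is not flexible for `e1, e2`; `c_J i₀ ≠ 0`. For `J ≠ J'` :
  `0 = ∑ y, c_J (ζ y) * c_J' (ζ y) = ∑ i ∈ F, n_i * (c_J i * c_J' i)` (`Finset.sum_fiberwise`-like). `star_count`.
-/

set_option autoImplicit false

namespace Pool.Agent.H97.Star

open Pool.Agent.H75.Bunchy Pool.Agent.H26.Bunchy Pool.Agent.H97.Bun Pool.Agent.H97.Cyc
open scoped Classical

variable {V K E X : Type*} [Fintype V] [Fintype E] [Fintype X] [Nonempty X] {s t : E → K}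
  {σ : V → K} {a : V → E → V} {e1 e2 : E} {μ : V → ℝ} {pr : E → ℝ} {p : X → V} {θ : X → X}

omit [Fintype V] [Fintype E] [Fintype X] [Nonempty X] in
lemma rl_flip (hs : s e1 = s e2) (δ : Set V) {β : List K} {g : Equiv.Perm X} :
    Rl (Step s σ (flip e1 e2 δ a)) σ p β g ↔ Rl (Step s σ a) σ p β g := by
  have h : Step s σ (H75.Bunchy.flip e1 e2 δ a) = Step s σ a := by
    funext q q'
    exact propext (step_flip hs δ q q')
  rw [h]

/-- orthogonality -/
theorem perp (hO : Orb (Step s σ a) σ p θ) (U W : Submodule ℝ (X → ℝ))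
    (hU : ∀ β g, Rl (Step s σ a) σ p β g → ∀ u ∈ U, (fun x => u (g x)) ∈ U)
    (hW : ∀ β g, Rl (Step s σ a) σ p β g → ∀ w ∈ W, (fun x => w (g x)) ∈ W)
    (hUW : ∀ u ∈ U, u ∈ W → u = 0) {u w : X → ℝ} (hu : u ∈ U) (hw : w ∈ W) :
    ∑ x, u x * w x = 0 := by
  have hS : ∀ g : Equiv.Perm X,
      g ∈ Finset.univ.filter (fun g : Equiv.Perm X => ∃ β, Rl (Step s σ a) σ p β g) ↔
        ∃ β, Rl (Step s σ a) σ p β g := fun g => by simp
  refine orth (Finset.univ.filter fun g : Equiv.Perm X => ∃ β, Rl (Step s σ a) σ p β g)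
    ((hS 1).2 ⟨[], rl_nil⟩) ?_ θ ?_ U W ?_ ?_ hUW hu hw
  · intro g hg h hh
    obtain ⟨β, hβ⟩ := (hS g).1 hg
    obtain ⟨γ, hγ⟩ := (hS h).1 hh
    exact (hS _).2 ⟨γ ++ β, rl_append hγ hβ⟩
  · intro x y
    obtain ⟨β, g, hg, h1, h2⟩ := hO.sym x y
    exact ⟨g, (hS g).2 ⟨β, hg⟩, h1, h2⟩
  · intro g hg u hu
    obtain ⟨β, hβ⟩ := (hS g).1 hg
    exact hU β g hβ u hu
  · intro g hg w hw
    obtain ⟨β, hβ⟩ := (hS g).1 hg
    exact hW β g hβ w hw

/-- the functions of `Ax` have sum zero -/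
theorem ax_sum (hμ : ∀ q, 0 < μ q) (ha : Typed s t σ a) {k : K} {Γ : List K}
    (hA : Abs s σ a k Γ p) (hO : Orb (Step s σ a) σ p θ) {u : X → ℝ}
    (hu : u ∈ Ax s t σ a μ k Γ p) : ∑ x, u x = 0 := by
  have h := perp hO (Ax s t σ a μ k Γ p) (Submodule.span ℝ {fun _ : X => (1 : ℝ)})
    (fun β g hβ u hu => ax_perm ha hA hβ hu)
    (fun β g _ w hw => by
      obtain ⟨c, rfl⟩ := Submodule.mem_span_singleton.1 hw
      exact Submodule.mem_span_singleton.2 ⟨c, rfl⟩)
    (fun u hu hu' => by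
      obtain ⟨c, rfl⟩ := Submodule.mem_span_singleton.1 hu'
      have h1 : (c • fun _ : X => (1 : ℝ)) = fun _ : X => c := by
        funext x
        simp
      rw [h1] at hu ⊢
      rw [ax_const hμ ha hA hu]
      rfl) hu (Submodule.mem_span_singleton_self _)
  simpa using h

end Pool.Agent.H97.Star
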