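import Pool.Agent.H97.Star.StarA
import Pool.Agent.H97.Star.Min
import Pool.Agent.H97.Star.TwoF
import Pool.Agent.H97.Star.Sep
import Pool.Agent.H97.Bun.StatU

/-!
# Star lemma: the total case

Part of `MP_644d19_co` (symmetric ends).

Let `w, e1, e2, x` be given by `exists_min`, `ζ y = run a (p y) w` (the same for all exchanges of `e1`, `e2`),
`F = {i | Flx s t σ a e1 e2 i ∧ ∃ y, ζ y = i}` (a nonempty finite type), `n i = card {y | ζ y = i} > 0`.
Let `S = {g | ∃ β, Rl (Step s σ a) σ p β g}` (closed under products, `rl_append`, contains `1`). For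
`J = a` and `J = flip e1 e2 {i} a` (`i ∈ F`): `J` is typed, strongly connected, has no stable pair, `μ` is
stationary (`stat_flip`), `Abs` holds (`Abs.flip`), `Rl` is the same relation (`step_flip`), and `Ax J` is
invariant under `S` (`ax_perm`).

* `perp`: if `Ax J` and `Ax J'` intersect in zero, they are orthogonal (`orth`). `ax_inf`: `Ax a`, `Ax (flip i)`
  intersect in zero. Constants: `W = span {1}` is invariant, `U ∩ W = 0` by `ax_const`; so `∑ x, u x = 0` for
  `u ∈ Ax J` (`orth`).
* `star_two`: for `i ≠ j` in `F`, `Ax (flip i) ∩ Ax (flip j) = 0`. Let `u` be in both, with `ψ`, `ψ'`; `Mo` is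
  the same, so `ψ = ψ'` on type `k` (`mo_zero`), and `ψ` is balanced with mean `0` for both. `two_flips`:
  either `ψ` is constant on type `k`, then it is `0` there (mean `0`), so `u = 0`; or there are `f`, `f'`. Put
  `κ_i = f i - f' i`, `κ_j = f j - f' j`, `u' y = f (ζ y)`, `u'' y = f' (ζ y)`: by `pull` (for `flip i`, `flip j`)
  in `Ax (flip i)`, `Ax (flip j)`, and `u' y - u'' y = κ_i [ζ y = i] + κ_j [ζ y = j]`. Sum over `y`:
  `κ_i n_i + κ_j n_j = 0`. By `bl_sep` some `h` is balanced for `a` at the type of `i` with `h i ≠ h j`;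
  `v y = h (ζ y) - c ∈ Ax a` (`pull`) is orthogonal to `u'` and `u''`:
  `κ_i n_i (h i - c) + κ_j n_j (h j - c) = 0`. So `κ_i n_i (h i - h j) = 0`, `κ_i = 0`, then `κ_j = 0`:
  contradiction.
* `star_total`: for `J` as above let `h_J` be balanced at the type `t e1` with `h_J (J i₀ e1) ≠ h_J (J i₀ e2)`
  (`bl_sep`; `i₀ = ζ x`), `c_J i = h_J (J i e1) - h_J (J i e2)` (a function of the state `i`). `q ↦ c_J q` is balanced at
  the type `s e1` with mean `0` (`bl_run` for `[e1]` and `[e2]`, difference). So `y ↦ c_J (ζ y) ∈ Ax J` (`pull`).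
  `c_J i = 0` if `i` has type `s e1` and is not flexible for `e1, e2`; `c_J i₀ ≠ 0`. For `J ≠ J'` :
  `0 = ∑ y, c_J (ζ y) * c_J' (ζ y) = ∑ i ∈ F, n_i * (c_J i * c_J' i)` (`Finset.sum_fiberwise`-like). `star_count`.
-/

set_option autoImplicit false

namespace Pool.Agent.H97.Star

open Pool.Agent.H75.Bunchy Pool.Agent.H26.Bunchy Pool.Agent.H97.Bun Pool.Agent.H97.Cyc
open scoped Classical

variable {V K E X : Type*} [Fintype V] [Fintype E] [Fintype X] [Nonempty X] {s t : E → K}
  {σ : V → K} {a : V → E → V} {e1 e2 : E} {μ : V → ℝ} {pr : E → ℝ} {p : X → V} {θ : X → X}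

omit [Fintype E] in
/-- a balanced function that is constant on its type is the mean -/
private lemma starB_const (hμ : ∀ q, 0 < μ q) {k : K} {ψ : V → ℝ}
    (h : Bl s t σ a μ k ψ 0) (hc : ∀ q q', σ q = k → σ q' = k → ψ q = ψ q') :
    ∀ q, σ q = k → ψ q = 0 := by
  intro q hq
  have h1 := h k [] ⟨q, hq⟩ trivial rfl
  simp only [run_nil] at h1
  have h2 : mean σ μ k ψ = mean σ μ k (fun _ => ψ q) := mean_congr fun p hp => hc p q hp hq
  rw [show (fun p => ψ p) = ψ from rfl, h2, mean_const hμ ⟨q, hq⟩] at h1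
  exact h1

omit [Fintype V] [Fintype E] [Nonempty X] in
/-- sums over the fibres of `ζ` -/
private lemma starB_sum {i j : V} (ζ : X → V) (hij : i ≠ j) (α β : ℝ) (F : V → ℝ)
    (v : X → ℝ) (hv : ∀ y, v y = if ζ y = i then α else if ζ y = j then β else 0) :
    ∑ y, v y * F (ζ y) =
      α * (Finset.univ.filter fun y => ζ y = i).card * F i +
      β * (Finset.univ.filter fun y => ζ y = j).card * F j := by
  have h1 : ∀ y, v y * F (ζ y) =
      (if ζ y = i then α * F i else 0) + (if ζ y = j then β * F j else 0) := by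
    intro y
    rw [hv]
    by_cases h1 : ζ y = i
    · have h2 : ζ y ≠ j := fun h => hij (h1.symm.trans h)
      rw [if_pos h1, if_pos h1, if_neg h2, h1]
      ring
    · rw [if_neg h1, if_neg h1]
      by_cases h2 : ζ y = j
      · rw [if_pos h2, if_pos h2, h2]
        ring
      · rw [if_neg h2, if_neg h2]
        ring
  rw [Finset.sum_congr rfl fun y _ => h1 y, Finset.sum_add_distrib, ← Finset.sum_filter,
    ← Finset.sum_filter, Finset.sum_const, Finset.sum_const, nsmul_eq_mul, nsmul_eq_mul]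
  ring

theorem star_two (ha : Typed s t σ a) (hcn : Conn s σ a) (h : Stat s σ a pr μ)
    (hs : s e1 = s e2) (ht : t e1 = t e2) (hsu : ∀ e, ∃ p, s e = σ p) {k : K}
    {Γ : List K} (hA : Abs s σ a k Γ p) (hO : Orb (Step s σ a) σ p θ) (hno : NoStable s t σ a)
    {w : List E} (hw : Valid s t k w)
    (hζ : ∀ (δ : Set V) (y : X), run (flip e1 e2 δ a) (p y) w = run a (p y) w)
    {i j : V} (hij : i ≠ j) (hi : s e1 = σ i) (hj : s e1 = σ j) (hfin : fin t k w = s e1)
    (hyi : ∃ y, run a (p y) w = i) (hyj : ∃ y, run a (p y) w = j)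
    (hTi : Total s σ a (a i e1) (a i e2)) (hTj : Total s σ a (a j e1) (a j e2))
    (hTi' : Total s σ (flip e1 e2 {i} a) (a i e2) (a i e1)) {u : X → ℝ}
    (hu : u ∈ Ax s t σ (flip e1 e2 {i} a) μ k Γ p)
    (hu' : u ∈ Ax s t σ (flip e1 e2 {j} a) μ k Γ p) : u = 0 := by
  have hμ := h.mu_pos
  have hai : Typed s t σ (flip e1 e2 {i} a) := ha.flip hs ht {i}
  have haj : Typed s t σ (flip e1 e2 {j} a) := ha.flip hs ht {j}
  have hAi : Abs s σ (flip e1 e2 {i} a) k Γ p := hA.flip hs {i}
  have hAj : Abs s σ (flip e1 e2 {j} a) k Γ p := hA.flip hs {j}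
  obtain ⟨ψ, h1, h2, h3⟩ := hu
  obtain ⟨ψ', h1', h2', h3'⟩ := hu'
  rw [mo_flip hs ht] at h1 h1'
  -- the two extensions agree
  have heq : ∀ q, σ q = k → (ψ + (-1 : ℝ) • ψ') q = 0 := by
    refine mo_zero (p := p) ha hA.typ hA.abs (fun q hq => ?_) (fun x => ?_)
    · rw [map_add, map_smul, Pi.add_apply, Pi.smul_apply, h1 q hq, h1' q hq, Pi.add_apply,
        Pi.smul_apply]
    · rw [Pi.add_apply, Pi.smul_apply, h3, h3', smul_eq_mul]
      ring
  have heq' : ∀ q, σ q = k → ψ' q = ψ q := by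
    intro q hq
    have := heq q hq
    rw [Pi.add_apply, Pi.smul_apply, smul_eq_mul] at this
    linarith
  have h4 : Bl s t σ (flip e1 e2 {j} a) μ k ψ 0 := bl_congr haj heq' h2'
  rcases two_flips hs ht ha hij (hj.symm.trans hi) hi hTi' h2 h4 with hc | ⟨f, f', hf, hf', hff, hne⟩
  · funext x
    rw [← h3 x]
    exact starB_const hμ h2 hc _ (hA.typ x)
  exfalso
  -- the pulled back functions
  have hfi : fin t k w = σ i := by rw [hfin, hi]
  have hp1 : (fun x => f (run a (p x) w)) ∈ Ax s t σ (flip e1 e2 {i} a) μ k Γ p := by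
    have := pull hμ hai hAi hw (f := f) (c := 0) (by rw [hfi]; exact hf)
    simpa only [hζ, sub_zero] using this
  have hp2 : (fun x => f' (run a (p x) w)) ∈ Ax s t σ (flip e1 e2 {j} a) μ k Γ p := by
    have := pull hμ haj hAj hw (f := f') (c := 0) (by rw [hfi]; exact hf')
    simpa only [hζ, sub_zero] using this
  have hOi : Orb (Step s σ (flip e1 e2 {i} a)) σ p θ := by
    have h5 : Step s σ (H75.Bunchy.flip e1 e2 {i} a) = Step s σ a := by
      funext q q'
      exact propext (step_flip hs {i} q q')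
    rw [h5]; exact hO
  have hOj : Orb (Step s σ (flip e1 e2 {j} a)) σ p θ := by
    have h5 : Step s σ (H75.Bunchy.flip e1 e2 {j} a) = Step s σ a := by
      funext q q'
      exact propext (step_flip hs {j} q q')
    rw [h5]; exact hO
  -- the difference
  obtain ⟨α, hα⟩ : ∃ α, α = f i - f' i := ⟨_, rfl⟩
  obtain ⟨β, hβ⟩ : ∃ β, β = f j - f' j := ⟨_, rfl⟩
  have htyp : ∀ y, σ (run a (p y) w) = σ i := by
    intro y
    rw [ha.run (p y) w (by rw [hA.typ]; exact hw), hA.typ, hfi]
  have hdiff : ∀ y, (fun y => f (run a (p y) w) - f' (run a (p y) w)) y =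
      if run a (p y) w = i then α else if run a (p y) w = j then β else 0 := by
    intro y
    by_cases k1 : run a (p y) w = i
    · simp only [k1, if_true, hα]
    · rw [if_neg k1]
      by_cases k2 : run a (p y) w = j
      · simp only [k2, if_true, hβ]
      · rw [if_neg k2]
        simp only
        rw [hff _ (htyp y) k1 k2, sub_self]
  -- sum zero
  have hsum : ∑ y, (f (run a (p y) w) - f' (run a (p y) w)) = 0 := by
    rw [Finset.sum_sub_distrib, ax_sum hμ hai hAi hOi hp1, ax_sum hμ haj hAj hOj hp2, sub_zero]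
  have hsum' := starB_sum (fun y => run a (p y) w) hij α β (fun _ => 1) _ hdiff
  simp only [mul_one] at hsum'
  rw [hsum] at hsum'
  -- a separating function
  obtain ⟨g, c, hg, hgij⟩ := bl_sep hs ht ha hcn h hsu hno (hi.symm.trans hj) hij
  have hp3 : (fun x => g (run a (p x) w) - c) ∈ Ax s t σ a μ k Γ p :=
    pull hμ ha hA hw (by rw [hfi]; exact hg)
  have horth1 : ∑ y, (f (run a (p y) w)) * (g (run a (p y) w) - c) = 0 := by
    have := perp hO (Ax s t σ a μ k Γ p) (Ax s t σ (flip e1 e2 {i} a) μ k Γ p)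
      (fun β g hβ u hu => ax_perm ha hA hβ hu)
      (fun β g hβ u hu => ax_perm hai hAi ((rl_flip hs {i}).2 hβ) hu)
      (fun u hu hu' => ax_inf hμ hs ht ha hi hTi hA hu hu') hp3 hp1
    rw [← this]
    exact Finset.sum_congr rfl fun y _ => by ring
  have horth2 : ∑ y, (f' (run a (p y) w)) * (g (run a (p y) w) - c) = 0 := by
    have := perp hO (Ax s t σ a μ k Γ p) (Ax s t σ (flip e1 e2 {j} a) μ k Γ p)
      (fun β g hβ u hu => ax_perm ha hA hβ hu)
      (fun β g hβ u hu => ax_perm haj hAj ((rl_flip hs {j}).2 hβ) hu)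
      (fun u hu hu' => ax_inf hμ hs ht ha hj hTj hA hu hu') hp3 hp2
    rw [← this]
    exact Finset.sum_congr rfl fun y _ => by ring
  have horth : ∑ y, (f (run a (p y) w) - f' (run a (p y) w)) * (g (run a (p y) w) - c) = 0 := by
    have h5 : ∀ y, (f (run a (p y) w) - f' (run a (p y) w)) * (g (run a (p y) w) - c) =
        (f (run a (p y) w)) * (g (run a (p y) w) - c) -
          (f' (run a (p y) w)) * (g (run a (p y) w) - c) := fun y => by ring
    rw [Finset.sum_congr rfl fun y _ => h5 y, Finset.sum_sub_distrib, horth1, horth2, sub_zero]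
  have horth' := starB_sum (fun y => run a (p y) w) hij α β (fun z => g z - c) _ hdiff
  rw [horth] at horth'
  -- the numbers of the ends
  have hni : (0 : ℝ) < (Finset.univ.filter fun y => run a (p y) w = i).card := by
    obtain ⟨y, hy⟩ := hyi
    have : y ∈ Finset.univ.filter (fun y => run a (p y) w = i) := by simp [hy]
    exact_mod_cast Finset.card_pos.2 ⟨y, this⟩
  have hnj : (0 : ℝ) < (Finset.univ.filter fun y => run a (p y) w = j).card := by
    obtain ⟨y, hy⟩ := hyj
    have : y ∈ Finset.univ.filter (fun y => run a (p y) w = j) := by simp [hy]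
    exact_mod_cast Finset.card_pos.2 ⟨y, this⟩
  obtain ⟨ni, hni'⟩ : ∃ ni : ℝ, ni = (Finset.univ.filter fun y => run a (p y) w = i).card := ⟨_, rfl⟩
  obtain ⟨nj, hnj'⟩ : ∃ nj : ℝ, nj = (Finset.univ.filter fun y => run a (p y) w = j).card := ⟨_, rfl⟩
  rw [← hni', ← hnj'] at hsum' horth'
  rw [← hni'] at hni
  rw [← hnj'] at hnj
  have h6 : α * ni * (g i - g j) = 0 := by
    have h7 : β * nj = - (α * ni) := by linarith
    rw [h7] at horth'
    linarith
  have h8 : g i - g j ≠ 0 := sub_ne_zero.2 hgij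
  have hα0 : α = 0 := by
    rcases mul_eq_zero.1 h6 with h9 | h9
    · exact (mul_eq_zero.1 h9).resolve_right hni.ne'
    · exact absurd h9 h8
  have hβ0 : β = 0 := by
    rw [hα0] at hsum'
    have : β * nj = 0 := by linarith
    exact (mul_eq_zero.1 this).resolve_right hnj.ne'
  rcases hne with hne | hne
  · exact hne (by rw [hα0] at hα; linarith)
  · exact hne (by rw [hβ0] at hβ; linarith)

end Pool.Agent.H97.Star
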